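import Pool.Agent.INC84.Lam

/-!
Hyperplane sections of a smooth strictly convex hypersurface `Sg` bounding `U`.
-/

namespace Pool.Agent.INC84

open Finset

set_option linter.unusedSectionVars false

variable {E : Type*} [AddCommGroup E] [Module ℝ E]

/-- The algebraic properties of a smooth strictly convex hypersurface `Sg` with inside `U`. -/
structure Ov (U Sg : Set E) : Prop where
  disj : ∀ p ∈ Sg, p ∉ U
  conv : ∀ x ∈ U, ∀ y ∈ U, ∀ t : ℝ, 0 ≤ t → t ≤ 1 → (1 - t) • x + t • y ∈ U
  seg : ∀ p ∈ Sg, ∀ y ∈ U, ∀ t : ℝ, 0 < t → t ≤ 1 → (1 - t) • p + t • y ∈ U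
  tang : ∀ p ∈ Sg, ∃ τ : E →ₗ[ℝ] ℝ, (∀ x ∈ U, τ x < τ p) ∧
    ∀ v : E, (∀ t : ℝ, p + t • v ∉ U) → τ v = 0
  strict : ∀ p ∈ Sg, ∀ q ∈ Sg, p ≠ q → (1 - 1 / 2 : ℝ) • p + (1 / 2 : ℝ) • q ∈ U
  exit : ∀ z ∈ U, ∀ v : E, v ≠ 0 → ∃ t : ℝ, z + t • v ∈ Sg

variable {ι : Type*} [DecidableEq ι] {U Sg : Set E}

/-- The affine subspace cut out by the hyperplanes `f i = b i`, `i ∈ T`. -/
def Aff (f : ι → E →ₗ[ℝ] ℝ) (b : ι → ℝ) (T : Finset ι) : Set E := {x | ∀ i ∈ T, f i x = b i}

lemma aff_comb {f : ι → E →ₗ[ℝ] ℝ} {b : ι → ℝ} {T : Finset ι} {x y : E}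
    (hx : x ∈ Aff f b T) (hy : y ∈ Aff f b T) (t : ℝ) : (1 - t) • x + t • y ∈ Aff f b T := by
  intro i hi
  rw [map_add, map_smul, map_smul, hx i hi, hy i hi, smul_eq_mul, smul_eq_mul]
  ring

lemma aff_insert {f : ι → E →ₗ[ℝ] ℝ} {b : ι → ℝ} {T : Finset ι} {k : ι} {x : E} :
    x ∈ Aff f b (insert k T) ↔ f k x = b k ∧ x ∈ Aff f b T := by
  simp [Aff]

/-- If the affine subspace of the hyperplanes in `T` meets `U` and has dimension at least two,
then it meets the hypersurface in infinitely many points. -/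
theorem aff_infinite [FiniteDimensional ℝ E] (hO : Ov U Sg) (f : ι → E →ₗ[ℝ] ℝ) (b : ι → ℝ)
    (T : Finset ι) {z : E} (hzU : z ∈ U) (hz : z ∈ Aff f b T)
    (hT : T.card + 2 ≤ Module.finrank ℝ E) : (Sg ∩ Aff f b T).Infinite := by
  classical
  let L : E →ₗ[ℝ] (T → ℝ) := LinearMap.pi (fun i : T => f i)
  have h1 : 1 < Module.finrank ℝ (LinearMap.ker L) := by
    have h2 := LinearMap.finrank_range_add_finrank_ker L
    have h3 : Module.finrank ℝ (LinearMap.range L) ≤ T.card := by
      calc Module.finrank ℝ (LinearMap.range L) ≤ Module.finrank ℝ (T → ℝ) :=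
            Submodule.finrank_le _
        _ = T.card := by simp
    omega
  have h0 : 0 < Module.finrank ℝ (LinearMap.ker L) := lt_trans Nat.zero_lt_one h1
  obtain ⟨v, hv⟩ : ∃ v : LinearMap.ker L, v ≠ 0 :=
    Module.finrank_pos_iff_exists_ne_zero.mp h0
  obtain ⟨w, hw⟩ := exists_linearIndependent_pair_of_one_lt_finrank h1 hv
  have hne : ∀ s : ℝ, (v : E) + s • (w : E) ≠ 0 := by
    intro s hs
    have h2 : (1 : ℝ) • v + s • w = 0 := by
      apply Subtype.ext
      simpa using hs
    have h3 := (LinearIndependent.pair_iff.mp hw) 1 s h2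
    exact one_ne_zero h3.1
  choose t ht using fun s : ℝ => hO.exit z hzU _ (hne s)
  have hker : ∀ u : LinearMap.ker L, ∀ i ∈ T, f i (u : E) = 0 := by
    intro u i hi
    have h2 : L (u : E) = 0 := u.2
    have h3 := congrFun h2 ⟨i, hi⟩
    simpa [L] using h3
  apply Set.infinite_of_injective_forall_mem (f := fun s : ℝ => z + t s • ((v : E) + s • (w : E)))
  · intro s s' hss
    simp only at hss
    have h2 : t s • ((v : E) + s • (w : E)) = t s' • ((v : E) + s' • (w : E)) :=
      add_left_cancel hss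
    have h3 : (t s - t s') • v + (t s * s - t s' * s') • w = 0 := by
      apply Subtype.ext
      have h4 : t s • (v : E) + (t s * s) • (w : E) = t s' • (v : E) + (t s' * s') • (w : E) := by
        simpa [smul_add, smul_smul] using h2
      have h5 : (t s - t s') • (v : E) + (t s * s - t s' * s') • (w : E) = 0 := by
        rw [sub_smul, sub_smul]
        have h6 := sub_eq_zero.mpr h4
        rw [← h6]
        abel
      simpa using h5
    obtain ⟨h4, h5⟩ := (LinearIndependent.pair_iff.mp hw) _ _ h3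
    have h6 : t s = t s' := sub_eq_zero.mp h4
    have h7 : t s ≠ 0 := by
      intro h0
      have := ht s
      rw [h0, zero_smul, add_zero] at this
      exact hO.disj z this hzU
    rw [← h6, ← mul_sub] at h5
    rcases mul_eq_zero.mp h5 with h8 | h8
    · exact absurd h8 h7
    · exact sub_eq_zero.mp h8
  · intro s
    refine ⟨ht s, ?_⟩
    intro i hi
    rw [map_add, map_smul, map_add, map_smul, hker v i hi, hker w i hi, hz i hi]
    simp

/-- If an affine subspace misses `U` then it has at most one point on the hypersurface. -/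
lemma aff_one (hO : Ov U Sg) {f : ι → E →ₗ[ℝ] ℝ} {b : ι → ℝ} {T : Finset ι}
    (h : ∀ y ∈ U, y ∉ Aff f b T) {p q : E} (hp : p ∈ Sg) (hq : q ∈ Sg) (hpA : p ∈ Aff f b T)
    (hqA : q ∈ Aff f b T) : p = q := by
  by_contra hpq
  exact h _ (hO.strict p hp q hq hpq) (aff_comb hpA hqA _)

/-- The linear bound for hyperplane sections which do not cross inside an affine subspace. -/
theorem caps_bound (hO : Ov U Sg) (f : ι → E →ₗ[ℝ] ℝ) (b : ι → ℝ) (T K : Finset ι)
    (hTK : ∀ k ∈ K, k ∉ T) {o : E} (hoU : o ∈ U) (hoA : o ∈ Aff f b T)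
    (hK1 : ∀ k ∈ K, ∃ y ∈ U, y ∈ Aff f b (insert k T))
    (hK2 : ∀ k ∈ K, ∀ l ∈ K, k ≠ l → ∀ y ∈ U, y ∉ Aff f b (insert k (insert l T)))
    (P : Finset E) (hP : ∀ p ∈ P, p ∈ Sg ∩ Aff f b T) :
    ∑ p ∈ P, (K.filter fun k => f k p = b k).card ≤ 2 * P.card + K.card := by
  classical
  let ε : ι → ℝ := fun k => if f k o ≤ b k then 1 else -1
  have hε : ∀ k, ε k ≠ 0 := by
    intro k
    simp only [ε]
    split_ifs <;> norm_num
  let g : ι → E → ℝ := fun k x => ε k * (f k x - b k)
  have hg0 : ∀ k x, g k x = 0 ↔ f k x = b k := by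
    intro k x
    simp only [g, mul_eq_zero, hε k, false_or, sub_eq_zero]
  have hLam : Lam (U ∩ Aff f b T) (Sg ∩ Aff f b T) g K o := by
    refine ⟨?_, ?_, ?_, ⟨hoU, hoA⟩, ?_, ?_, ?_, ?_, ?_⟩
    · intro k x y t
      simp only [g, map_add, map_smul, smul_eq_mul]
      ring
    · intro x hx y hy t h0 h1
      exact ⟨hO.conv x hx.1 y hy.1 t h0 h1, aff_comb hx.2 hy.2 t⟩
    · intro p hp y hy t h0 h1
      exact ⟨hO.seg p hp.1 y hy.1 t h0 h1, aff_comb hp.2 hy.2 t⟩
    · intro k _
      simp only [g, ε]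
      split_ifs with h
      · linarith
      · push Not at h; linarith
    · intro k hk
      obtain ⟨y, hyU, hy⟩ := hK1 k hk
      rw [aff_insert] at hy
      exact ⟨y, ⟨hyU, hy.2⟩, (hg0 k y).mpr hy.1⟩
    · intro k hk l hl hkl y hy hk0 hl0
      apply hK2 k hk l hl hkl y hy.1
      rw [aff_insert, aff_insert]
      exact ⟨(hg0 k y).mp hk0, (hg0 l y).mp hl0, hy.2⟩
    · intro p hp q hq k hk l hl hkl h1 h2 h3 h4
      apply aff_one hO (hK2 k hk l hl hkl) hp.1 hq.1
      · rw [aff_insert, aff_insert]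
        exact ⟨(hg0 k p).mp h1, (hg0 l p).mp h2, hp.2⟩
      · rw [aff_insert, aff_insert]
        exact ⟨(hg0 k q).mp h3, (hg0 l q).mp h4, hq.2⟩
    · intro p hp
      obtain ⟨τ, hτ, hτ'⟩ := hO.tang p hp.1
      refine ⟨fun x => τ x - τ p, fun x hx => by have := hτ x hx.1; linarith, ?_⟩
      intro k hk l hl hkl hkp hlp
      rw [hg0] at hkp hlp
      set M : Finset ι := insert k (insert l T) with hM
      have hker : ⨅ i : M, LinearMap.ker (f i) ≤ LinearMap.ker τ := by
        intro v hv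
        rw [Submodule.mem_iInf] at hv
        rw [LinearMap.mem_ker]
        apply hτ'
        intro t htU
        apply hK2 k hk l hl hkl _ htU
        intro i hi
        have h1 : f i v = 0 := by simpa using hv ⟨i, hi⟩
        have h2 : f i p = b i := by
          rw [Finset.mem_insert, Finset.mem_insert] at hi
          rcases hi with rfl | rfl | hi
          · exact hkp
          · exact hlp
          · exact hp.2 i hi
        rw [map_add, map_smul, h1, h2]
        simp
      have hspan := mem_span_of_iInf_ker_le_ker hker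
      rw [Submodule.mem_span_range_iff_exists_fun] at hspan
      obtain ⟨c, hc⟩ := hspan
      let c' : ι → ℝ := fun i => if h : i ∈ M then c ⟨i, h⟩ else 0
      have hsum : ∀ v : E, τ v = ∑ i ∈ M, c' i * f i v := by
        intro v
        rw [← hc, ← Finset.sum_coe_sort M (fun i => c' i * f i v), LinearMap.sum_apply]
        apply Finset.sum_congr rfl
        intro i _
        simp [c']
      have hkM : k ∉ insert l T := by
        rw [Finset.mem_insert]
        push Not
        exact ⟨hkl, hTK k hk⟩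
      refine ⟨c' k / ε k, c' l / ε l, ?_⟩
      intro x hx
      simp only [g]
      rw [← map_sub, hsum, hM, Finset.sum_insert hkM, Finset.sum_insert (hTK l hl)]
      have h0 : ∑ i ∈ T, c' i * f i (x - p) = 0 := by
        apply Finset.sum_eq_zero
        intro i hi
        rw [map_sub, hx.2 i hi, hp.2 i hi]
        ring
      rw [h0, map_sub, map_sub, hkp, hlp]
      field_simp [hε k, hε l]
      ring
  have := lam_bound hLam P hP
  simpa only [hg0] using this

end Pool.Agent.INC84
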