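import Pool.Agent.INC84.Caps

/-!
Double counting over intersections of `m - 2` sections, and over pairs of points.
-/

namespace Pool.Agent.INC84

open Finset

set_option linter.unusedSectionVars false

variable {E : Type*} [AddCommGroup E] [Module ℝ E] [FiniteDimensional ℝ E]
variable {ι : Type*} [Fintype ι] [DecidableEq ι] {U Sg : Set E}

/-- The hypotheses of the counting argument. -/
structure Cfg (U Sg : Set E) (f : ι → E →ₗ[ℝ] ℝ) (b : ι → ℝ) (m : ℕ) : Prop where
  ov : Ov U Sg
  two : 2 ≤ m
  dim : m + 2 ≤ Module.finrank ℝ E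
  fin : ∀ M : Finset ι, M.card = m → (Sg ∩ Aff f b M).Finite

variable {f : ι → E →ₗ[ℝ] ℝ} {b : ι → ℝ} {m : ℕ}

lemma Cfg.miss (h : Cfg U Sg f b m) {M : Finset ι} (hM : M.card = m) : ∀ y ∈ U, y ∉ Aff f b M := by
  intro y hy hyM
  exact (aff_infinite h.ov f b M hy hyM (by rw [hM]; exact h.dim)) (h.fin M hM)

/-- The sections through a point. -/
noncomputable def J (f : ι → E →ₗ[ℝ] ℝ) (b : ι → ℝ) (p : E) : Finset ι := by
  classical exact Finset.univ.filter fun k => f k p = b k

lemma mem_J {p : E} {k : ι} : k ∈ J f b p ↔ f k p = b k := by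
  simp [J]

lemma aff_iff_subset {p : E} {T : Finset ι} : p ∈ Aff f b T ↔ T ⊆ J f b p := by
  constructor
  · intro h i hi
    exact mem_J.mpr (h i hi)
  · intro h i hi
    exact mem_J.mp (h hi)

open Classical in
theorem tuple_bound (h : Cfg U Sg f b m) (T : Finset ι) (hT : T.card = m - 2) (P : Finset E)
    (hP : ∀ p ∈ P, p ∈ Sg) :
    ∑ p ∈ P.filter (fun p => p ∈ Aff f b T), (J f b p \ T).card
      ≤ 2 * (P.filter (fun p => p ∈ Aff f b T)).card + Fintype.card ι := by
  have h2 := h.two
  set Q := P.filter (fun p => p ∈ Aff f b T) with hQ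
  have hQS : ∀ p ∈ Q, p ∈ Sg ∩ Aff f b T := by
    intro p hp
    rw [hQ, Finset.mem_filter] at hp
    exact ⟨hP p hp.1, hp.2⟩
  by_cases hex : ∃ o ∈ U, o ∈ Aff f b T
  · obtain ⟨o, hoU, hoA⟩ := hex
    set K := Finset.univ.filter fun k => k ∉ T ∧ ∃ y ∈ U, y ∈ Aff f b (insert k T) with hK
    set K' := Finset.univ.filter fun k => k ∉ T ∧ ¬ ∃ y ∈ U, y ∈ Aff f b (insert k T) with hK'
    have h3 : ∑ p ∈ Q, (K.filter fun k => f k p = b k).card ≤ 2 * Q.card + K.card := by
      apply caps_bound h.ov f b T K _ hoU hoA _ _ Q hQS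
      · intro k hk
        rw [hK, Finset.mem_filter] at hk
        exact hk.2.1
      · intro k hk
        rw [hK, Finset.mem_filter] at hk
        exact hk.2.2
      · intro k hk l hl hkl
        rw [hK, Finset.mem_filter] at hk hl
        apply h.miss
        rw [Finset.card_insert_of_notMem, Finset.card_insert_of_notMem hl.2.1, hT]
        · omega
        · rw [Finset.mem_insert]
          push Not
          exact ⟨hkl, hk.2.1⟩
    have h4 : ∑ p ∈ Q, (K'.filter fun k => f k p = b k).card ≤ K'.card := by
      have h5 : ∑ p ∈ Q, (K'.filter fun k => f k p = b k).card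
          = ∑ k ∈ K', (Q.filter fun p => f k p = b k).card := by
        simp only [Finset.card_filter]
        rw [Finset.sum_comm]
      rw [h5, Finset.card_eq_sum_ones K']
      apply Finset.sum_le_sum
      intro k hk
      rw [Finset.card_le_one]
      intro p hp q hq
      rw [Finset.mem_filter] at hp hq
      rw [hK', Finset.mem_filter] at hk
      have hk' : ∀ y ∈ U, y ∉ Aff f b (insert k T) := by
        have := hk.2.2
        push Not at this
        exact this
      apply aff_one h.ov hk' (hQS p hp.1).1 (hQS q hq.1).1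
      · rw [aff_insert]; exact ⟨hp.2, (hQS p hp.1).2⟩
      · rw [aff_insert]; exact ⟨hq.2, (hQS q hq.1).2⟩
    have h6 : ∀ p ∈ Q, (J f b p \ T).card
        ≤ (K.filter fun k => f k p = b k).card + (K'.filter fun k => f k p = b k).card := by
      intro p _
      refine (Finset.card_le_card ?_).trans (Finset.card_union_le _ _)
      intro k hk
      rw [Finset.mem_sdiff, mem_J] at hk
      rw [Finset.mem_union]
      by_cases hc : ∃ y ∈ U, y ∈ Aff f b (insert k T)
      · exact Or.inl (Finset.mem_filter.mpr
          ⟨Finset.mem_filter.mpr ⟨Finset.mem_univ _, hk.2, hc⟩, hk.1⟩)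
      · exact Or.inr (Finset.mem_filter.mpr
          ⟨Finset.mem_filter.mpr ⟨Finset.mem_univ _, hk.2, hc⟩, hk.1⟩)
    have h7 : K.card + K'.card ≤ Fintype.card ι := by
      rw [← Finset.card_union_of_disjoint]
      · exact Finset.card_le_univ _
      · rw [Finset.disjoint_left]
        intro k hk hk'
        rw [hK, Finset.mem_filter] at hk
        rw [hK', Finset.mem_filter] at hk'
        exact hk'.2.2 hk.2.2
    calc ∑ p ∈ Q, (J f b p \ T).card
        ≤ ∑ p ∈ Q, ((K.filter fun k => f k p = b k).card
            + (K'.filter fun k => f k p = b k).card) := Finset.sum_le_sum h6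
      _ = ∑ p ∈ Q, (K.filter fun k => f k p = b k).card
            + ∑ p ∈ Q, (K'.filter fun k => f k p = b k).card := Finset.sum_add_distrib
      _ ≤ 2 * Q.card + Fintype.card ι := by omega
  · push Not at hex
    have h3 : Q.card ≤ 1 := by
      rw [Finset.card_le_one]
      intro p hp q hq
      exact aff_one h.ov hex (hQS p hp).1 (hQS q hq).1 (hQS p hp).2 (hQS q hq).2
    calc ∑ p ∈ Q, (J f b p \ T).card ≤ ∑ p ∈ Q, Fintype.card ι :=
          Finset.sum_le_sum fun p _ => Finset.card_le_univ _
      _ = Q.card * Fintype.card ι := by rw [Finset.sum_const, smul_eq_mul]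
      _ ≤ 1 * Fintype.card ι := by gcongr
      _ ≤ 2 * Q.card + Fintype.card ι := by omega

/-- The main counting inequality over `m - 2` sections. -/
theorem count_sections (h : Cfg U Sg f b m) (P : Finset E) (hP : ∀ p ∈ P, p ∈ Sg) :
    ∑ p ∈ P, (J f b p).card.choose (m - 2) * ((J f b p).card - (m - 2))
      ≤ 2 * (∑ p ∈ P, (J f b p).card.choose (m - 2))
        + (Fintype.card ι).choose (m - 2) * Fintype.card ι := by
  classical
  have key : ∀ F : Finset ι → E → ℕ,
      ∑ T ∈ (Finset.univ : Finset ι).powersetCard (m - 2),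
        ∑ p ∈ P.filter (fun p => p ∈ Aff f b T), F T p
      = ∑ p ∈ P, ∑ T ∈ (J f b p).powersetCard (m - 2), F T p := by
    intro F
    rw [Finset.sum_comm' (s' := fun p => (J f b p).powersetCard (m - 2)) (t' := P)]
    intro T p
    simp only [Finset.mem_powersetCard, Finset.mem_filter, aff_iff_subset]
    constructor
    · rintro ⟨⟨_, h1⟩, h2, h3⟩; exact ⟨⟨h3, h1⟩, h2⟩
    · rintro ⟨⟨h3, h1⟩, h2⟩; exact ⟨⟨Finset.subset_univ _, h1⟩, h2, h3⟩
  have h1 : ∑ p ∈ P, (J f b p).card.choose (m - 2) * ((J f b p).card - (m - 2))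
      = ∑ p ∈ P, ∑ T ∈ (J f b p).powersetCard (m - 2), (J f b p \ T).card := by
    apply Finset.sum_congr rfl
    intro p _
    rw [← Finset.card_powersetCard, ← smul_eq_mul, ← Finset.sum_const]
    apply Finset.sum_congr rfl
    intro T hT
    rw [Finset.mem_powersetCard] at hT
    rw [Finset.card_sdiff_of_subset hT.1, hT.2]
  have h2 : ∑ p ∈ P, (J f b p).card.choose (m - 2)
      = ∑ p ∈ P, ∑ T ∈ (J f b p).powersetCard (m - 2), 1 := by
    apply Finset.sum_congr rfl
    intro p _
    rw [Finset.sum_const, smul_eq_mul, mul_one, Finset.card_powersetCard]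
  rw [h1, h2, ← key (fun T p => (J f b p \ T).card), ← key (fun _ _ => 1), Finset.mul_sum]
  calc ∑ T ∈ (Finset.univ : Finset ι).powersetCard (m - 2),
        ∑ p ∈ P.filter (fun p => p ∈ Aff f b T), (J f b p \ T).card
      ≤ ∑ T ∈ (Finset.univ : Finset ι).powersetCard (m - 2),
        (2 * (∑ p ∈ P.filter (fun p => p ∈ Aff f b T), 1) + Fintype.card ι) := by
        apply Finset.sum_le_sum
        intro T hT
        rw [Finset.mem_powersetCard] at hT
        have := tuple_bound h T hT.2 P hP
        rw [← Finset.card_eq_sum_ones]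
        exact this
    _ = _ := by
        rw [Finset.sum_add_distrib, Finset.sum_const, Finset.card_powersetCard, smul_eq_mul,
          Finset.card_univ]

/-- Two points are on at most `m - 1` common sections. -/
theorem pair_bound (h : Cfg U Sg f b m) {p q : E} (hp : p ∈ Sg) (hq : q ∈ Sg) (hpq : p ≠ q) :
    (J f b p ∩ J f b q).card ≤ m - 1 := by
  by_contra hcon
  push Not at hcon
  have h2 := h.two
  obtain ⟨M, hM, hMc⟩ := Finset.exists_subset_card_eq (show m ≤ (J f b p ∩ J f b q).card by omega)
  exact hpq (aff_one h.ov (h.miss hMc) hp hq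
    (aff_iff_subset.mpr (hM.trans Finset.inter_subset_left))
    (aff_iff_subset.mpr (hM.trans Finset.inter_subset_right)))

open Classical in
/-- Counting pairs of points on a common section. -/
theorem count_points (h : Cfg U Sg f b m) (P : Finset E) (hP : ∀ p ∈ P, p ∈ Sg) :
    ∑ k : ι, (P.filter fun p => f k p = b k).card ^ 2
      ≤ ∑ k : ι, (P.filter fun p => f k p = b k).card + (m - 1) * P.card ^ 2 := by
  have h1 : ∀ k : ι, (P.filter fun p => f k p = b k).card ^ 2
      = (P.filter fun p => f k p = b k).card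
        + ∑ x ∈ P.offDiag, if f k x.1 = b k ∧ f k x.2 = b k then 1 else 0 := by
    intro k
    have h2 : ∑ x ∈ P.offDiag, (if f k x.1 = b k ∧ f k x.2 = b k then 1 else 0)
        = (P.filter fun p => f k p = b k).offDiag.card := by
      rw [← Finset.card_filter]
      congr 1
      ext x
      simp only [Finset.mem_filter, Finset.mem_offDiag]
      tauto
    rw [h2, Finset.offDiag_card, sq]
    have := Nat.le_mul_self (P.filter fun p => f k p = b k).card
    omega
  simp_rw [h1]
  rw [Finset.sum_add_distrib, Finset.sum_comm]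
  gcongr
  calc ∑ x ∈ P.offDiag, ∑ k : ι, (if f k x.1 = b k ∧ f k x.2 = b k then 1 else 0)
      ≤ ∑ x ∈ P.offDiag, (m - 1) := by
        apply Finset.sum_le_sum
        intro x hx
        rw [Finset.mem_offDiag] at hx
        have h3 := pair_bound h (hP _ hx.1) (hP _ hx.2.1) hx.2.2
        rw [← Finset.card_filter]
        refine (Finset.card_le_card ?_).trans h3
        intro k hk
        rw [Finset.mem_filter] at hk
        rw [Finset.mem_inter, mem_J, mem_J]
        exact hk.2
    _ = P.offDiag.card * (m - 1) := by rw [Finset.sum_const, smul_eq_mul]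
    _ ≤ P.card ^ 2 * (m - 1) := by
        gcongr
        rw [Finset.offDiag_card, sq]
        exact Nat.sub_le _ _
    _ = (m - 1) * P.card ^ 2 := by ring

end Pool.Agent.INC84
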