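import Pool.Agent.INC84.Main

/-!
Two instances: boundaries of smooth strictly convex sets, and the paraboloid.
-/

namespace Pool.Agent.INC84

/-- `U` is a nonempty open convex set without lines whose boundary is strictly convex (it contains
no segment) and smooth (through each of its points there is only one supporting hyperplane). -/
structure Ovaloid {E : Type*} [NormedAddCommGroup E] [NormedSpace ℝ E] (U : Set E) : Prop where
  isOpen : IsOpen U
  nonempty : U.Nonempty
  convex : Convex ℝ U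
  no_line : ∀ x v : E, v ≠ 0 → ∃ t : ℝ, x + t • v ∉ U
  strict : ∀ p ∈ frontier U, ∀ q ∈ frontier U, p ≠ q → midpoint ℝ p q ∈ U
  smooth : ∀ p ∈ frontier U, ∀ f g : E →L[ℝ] ℝ, f ≠ 0 → g ≠ 0 → (∀ x ∈ U, f x ≤ f p) →
    (∀ x ∈ U, g x ≤ g p) → ∃ c : ℝ, g = c • f

section
variable {E : Type*} [NormedAddCommGroup E] [NormedSpace ℝ E] {U : Set E}

theorem Ovaloid.ov (h : Ovaloid U) : Ov U (frontier U) := by
  have hint : interior U = U := h.isOpen.interior_eq
  obtain ⟨u0, hu0⟩ := h.nonempty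
  refine ⟨?_, ?_, ?_, ?_, ?_, ?_⟩
  · intro p hp hpU
    rw [h.isOpen.frontier_eq] at hp
    exact hp.2 hpU
  · intro x hx y hy t h0 h1
    exact h.convex hx hy (by linarith) h0 (by ring)
  · intro p hp y hy t h0 h1
    have h2 : (1 - t) • p + t • y ∈ interior U :=
      h.convex.combo_closure_interior_mem_interior (frontier_subset_closure hp)
        (by rw [hint]; exact hy) (by linarith) h0 (by ring)
    rwa [hint] at h2
  · intro p hp
    have hpU : p ∉ U := by
      rw [h.isOpen.frontier_eq] at hp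
      exact hp.2
    obtain ⟨τ, hτ⟩ := geometric_hahn_banach_open_point h.convex h.isOpen hpU
    have hτ0 : τ ≠ 0 := by
      rintro rfl
      have := hτ u0 hu0
      simp at this
    refine ⟨τ.toLinearMap, fun x hx => hτ x hx, ?_⟩
    intro v hv
    have hL : Convex ℝ (Set.range fun t : ℝ => p + t • v) := by
      rintro _ ⟨s, rfl⟩ _ ⟨s', rfl⟩ a b ha hb hab
      refine ⟨a * s + b * s', ?_⟩
      simp only [smul_add, smul_smul, add_smul]
      have : p = a • p + b • p := by rw [← add_smul, hab, one_smul]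
      nth_rewrite 1 [this]
      abel
    have hd : Disjoint U (Set.range fun t : ℝ => p + t • v) := by
      rw [Set.disjoint_right]
      rintro _ ⟨t, rfl⟩
      exact hv t
    obtain ⟨g, u, hg1, hg2⟩ := geometric_hahn_banach_open h.convex h.isOpen hL hd
    have hgp : u ≤ g p := by
      have := hg2 (p + (0 : ℝ) • v) ⟨0, rfl⟩
      simpa using this
    have hg0 : g ≠ 0 := by
      rintro rfl
      have h1 := hg1 u0 hu0
      simp at h1 hgp
      linarith
    have hgv : g v = 0 := by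
      by_contra hne
      have h1 := hg2 (p + ((u - 1 - g p) / g v) • v) ⟨_, rfl⟩
      rw [map_add, map_smul, smul_eq_mul, div_mul_cancel₀ _ hne] at h1
      linarith
    obtain ⟨c, hc⟩ := h.smooth p hp τ g hτ0 hg0 (fun x hx => (hτ x hx).le)
      (fun x hx => (hg1 x hx).le.trans hgp)
    have hc0 : c ≠ 0 := by
      rintro rfl
      rw [zero_smul] at hc
      exact hg0 hc
    have h2 : g v = c * τ v := by rw [hc]; rfl
    rw [hgv] at h2
    rcases mul_eq_zero.mp h2.symm with h3 | h3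
    · exact absurd h3 hc0
    · exact h3
  · intro p hp q hq hpq
    have h1 := h.strict p hp q hq hpq
    rw [midpoint_eq_smul_add] at h1
    have h2 : (1 - 1 / 2 : ℝ) • p + (1 / 2 : ℝ) • q = (⅟2 : ℝ) • (p + q) := by
      rw [smul_add]
      norm_num
    rw [h2]
    exact h1
  · intro z hz v hv
    obtain ⟨t0, ht0⟩ := h.no_line z v hv
    have hc : Continuous fun t : ℝ => z + t • v := by fun_prop
    have h1 : (frontier ((fun t : ℝ => z + t • v) ⁻¹' U)).Nonempty := by
      rw [nonempty_frontier_iff]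
      refine ⟨⟨0, by simpa using hz⟩, ?_⟩
      intro h2
      have : t0 ∈ (fun t : ℝ => z + t • v) ⁻¹' U := by rw [h2]; trivial
      exact ht0 this
    obtain ⟨t, ht⟩ := h1
    exact ⟨t, hc.frontier_preimage_subset U ht⟩

end

section
variable {V : Type*} [NormedAddCommGroup V] [InnerProductSpace ℝ V]

/-- The inside of the paraboloid. -/
def parU (V : Type*) [NormedAddCommGroup V] [InnerProductSpace ℝ V] : Set (V × ℝ) :=
  {z | ‖z.1‖ ^ 2 < z.2}

/-- The paraboloid. -/
def parS (V : Type*) [NormedAddCommGroup V] [InnerProductSpace ℝ V] : Set (V × ℝ) :=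
  {z | ‖z.1‖ ^ 2 = z.2}

lemma norm_comb (x y : V) (t : ℝ) :
    ‖(1 - t) • x + t • y‖ ^ 2 = (1 - t) * ‖x‖ ^ 2 + t * ‖y‖ ^ 2 - t * (1 - t) * ‖x - y‖ ^ 2 := by
  rw [norm_add_sq_real, norm_sub_sq_real, norm_smul, norm_smul, mul_pow, mul_pow,
    real_inner_smul_left, real_inner_smul_right, Real.norm_eq_abs, Real.norm_eq_abs, sq_abs, sq_abs]
  ring

theorem par_ov : Ov (parU V) (parS V) := by
  refine ⟨?_, ?_, ?_, ?_, ?_, ?_⟩
  · intro p hp hpU
    simp only [parS, parU, Set.mem_ofPred_eq] at hp hpU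
    linarith
  · intro x hx y hy t h0 h1
    simp only [parU, Set.mem_ofPred_eq] at hx hy ⊢
    simp only [Prod.fst_add, Prod.smul_fst, Prod.snd_add, Prod.smul_snd, smul_eq_mul]
    rw [norm_comb]
    have h2 : 0 ≤ t * (1 - t) * ‖x.1 - y.1‖ ^ 2 :=
      mul_nonneg (mul_nonneg h0 (by linarith)) (by positivity)
    have h3 : (1 - t) * ‖x.1‖ ^ 2 ≤ (1 - t) * x.2 := mul_le_mul_of_nonneg_left hx.le (by linarith)
    have h4 : t * ‖y.1‖ ^ 2 ≤ t * y.2 := mul_le_mul_of_nonneg_left hy.le h0
    rcases h0.eq_or_lt with h5 | h5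
    · rw [← h5] at *
      linarith
    · have h6 : t * ‖y.1‖ ^ 2 < t * y.2 := mul_lt_mul_of_pos_left hy h5
      linarith
  · intro p hp y hy t h0 h1
    simp only [parS, parU, Set.mem_ofPred_eq] at hp hy ⊢
    simp only [Prod.fst_add, Prod.smul_fst, Prod.snd_add, Prod.smul_snd, smul_eq_mul]
    rw [norm_comb]
    have h2 : 0 ≤ t * (1 - t) * ‖p.1 - y.1‖ ^ 2 :=
      mul_nonneg (mul_nonneg h0.le (by linarith)) (by positivity)
    have h3 : (1 - t) * ‖p.1‖ ^ 2 = (1 - t) * p.2 := by rw [hp]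
    have h6 : t * ‖y.1‖ ^ 2 < t * y.2 := mul_lt_mul_of_pos_left hy h0
    linarith
  · intro p hp
    simp only [parS, Set.mem_ofPred_eq] at hp
    refine ⟨(2 : ℝ) • ((innerₗ V p.1).comp (LinearMap.fst ℝ V ℝ)) - LinearMap.snd ℝ V ℝ, ?_, ?_⟩
    · intro x hx
      simp only [parU, Set.mem_ofPred_eq] at hx
      simp only [LinearMap.sub_apply, LinearMap.smul_apply, LinearMap.comp_apply,
        LinearMap.fst_apply, LinearMap.snd_apply, smul_eq_mul, innerₗ_apply_apply]
      rw [real_inner_self_eq_norm_sq]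
      have h1 := norm_sub_sq_real p.1 x.1
      have h2 : 0 ≤ ‖p.1 - x.1‖ ^ 2 := by positivity
      linarith
    · intro v hv
      simp only [LinearMap.sub_apply, LinearMap.smul_apply, LinearMap.comp_apply,
        LinearMap.fst_apply, LinearMap.snd_apply, smul_eq_mul, innerₗ_apply_apply]
      have h1 : ∀ t : ℝ, 0 ≤ t * (2 * inner ℝ p.1 v.1 - v.2) + t ^ 2 * ‖v.1‖ ^ 2 := by
        intro t
        have h2 := hv t
        simp only [parU, Set.mem_ofPred_eq, not_lt, Prod.fst_add, Prod.smul_fst, Prod.snd_add,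
          Prod.smul_snd, smul_eq_mul] at h2
        rw [norm_add_sq_real, norm_smul, mul_pow, Real.norm_eq_abs, sq_abs,
          real_inner_smul_right, ← hp] at h2
        linarith
      by_contra hne
      set s : ℝ := 2 * inner ℝ p.1 v.1 - v.2 with hs
      have h3 := h1 (-s / (1 + ‖v.1‖ ^ 2))
      have h4 : (0 : ℝ) < 1 + ‖v.1‖ ^ 2 := by positivity
      have h5 : -s / (1 + ‖v.1‖ ^ 2) * s + (-s / (1 + ‖v.1‖ ^ 2)) ^ 2 * ‖v.1‖ ^ 2
          = - (s ^ 2 / (1 + ‖v.1‖ ^ 2) ^ 2) := by
        field_simp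
        ring
      rw [h5] at h3
      have h6 : 0 < s ^ 2 / (1 + ‖v.1‖ ^ 2) ^ 2 := by positivity
      linarith
  · intro p hp q hq hpq
    simp only [parS, parU, Set.mem_ofPred_eq] at hp hq ⊢
    simp only [Prod.fst_add, Prod.smul_fst, Prod.snd_add, Prod.smul_snd, smul_eq_mul]
    rw [norm_comb]
    have h1 : p.1 ≠ q.1 := by
      intro h
      apply hpq
      apply Prod.ext h
      rw [← hp, ← hq, h]
    have h2 : 0 < ‖p.1 - q.1‖ ^ 2 := by
      have := norm_pos_iff.mpr (sub_ne_zero.mpr h1)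
      positivity
    rw [hp, hq]
    linarith
  · intro z hz v hv
    simp only [parU, Set.mem_ofPred_eq] at hz
    simp only [parS, Set.mem_ofPred_eq, Prod.fst_add, Prod.smul_fst, Prod.snd_add, Prod.smul_snd,
      smul_eq_mul]
    have h1 : ∀ t : ℝ, ‖z.1 + t • v.1‖ ^ 2 = ‖z.1‖ ^ 2 + 2 * (t * inner ℝ z.1 v.1)
        + t ^ 2 * ‖v.1‖ ^ 2 := by
      intro t
      rw [norm_add_sq_real, norm_smul, mul_pow, Real.norm_eq_abs, sq_abs, real_inner_smul_right]
    simp_rw [h1]
    by_cases hv1 : v.1 = 0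
    · have hv2 : v.2 ≠ 0 := by
        intro h2
        exact hv (Prod.ext hv1 h2)
      refine ⟨(‖z.1‖ ^ 2 - z.2) / v.2, ?_⟩
      rw [hv1]
      simp
      field_simp
      ring
    · have ha : 0 < ‖v.1‖ ^ 2 := by
        have := norm_pos_iff.mpr hv1
        positivity
      set a := ‖v.1‖ ^ 2 with haa
      set B := 2 * inner ℝ z.1 v.1 - v.2 with hB
      set c := ‖z.1‖ ^ 2 - z.2 with hcc
      have hc : c < 0 := by rw [hcc]; linarith
      have hdisc : 0 ≤ B ^ 2 - 4 * a * c := by nlinarith [sq_nonneg B]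
      refine ⟨(-B + Real.sqrt (B ^ 2 - 4 * a * c)) / (2 * a), ?_⟩
      have hs := Real.sq_sqrt hdisc
      set r := Real.sqrt (B ^ 2 - 4 * a * c) with hr
      have key : a * ((-B + r) / (2 * a)) ^ 2 + B * ((-B + r) / (2 * a)) + c = 0 := by
        field_simp
        nlinarith
      have e1 : 2 * inner ℝ z.1 v.1 = B + v.2 := by rw [hB]; ring
      have e2 : ‖z.1‖ ^ 2 = c + z.2 := by rw [hcc]; ring
      rw [e2]
      linear_combination key + (-B + r) / (2 * a) * e1

end

end Pool.Agent.INC84
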