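import Mathlib

/-!
Laminar families of caps: the linear incidence bound.
-/

namespace Pool.Agent.INC84

open Finset

set_option linter.unusedSectionVars false

variable {E : Type*} [AddCommGroup E] [Module ℝ E]

/-- A function that is affine on segments. -/
def Aff1 (g : E → ℝ) : Prop :=
  ∀ x y : E, ∀ t : ℝ, g ((1 - t) • x + t • y) = (1 - t) * g x + t * g y

/-- The crossing point of a segment with the zero set of an affine function. -/
lemma cross {g : E → ℝ} (hg : Aff1 g) {x y : E} (hx : g x ≤ 0) (hy : 0 < g y) :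
    ∃ t : ℝ, 0 ≤ t ∧ t < 1 ∧ g ((1 - t) • x + t • y) = 0 ∧ (g x < 0 → 0 < t) := by
  have hpos : 0 < g y - g x := by linarith
  refine ⟨-g x / (g y - g x), div_nonneg (by linarith) hpos.le, ?_, ?_, ?_⟩
  · rw [div_lt_one hpos]; linarith
  · rw [hg]
    field_simp
    ring
  · intro h
    exact div_pos (by linarith) hpos

/-- The same with the other sign. -/
lemma cross' {g : E → ℝ} (hg : Aff1 g) {x y : E} (hx : 0 ≤ g x) (hy : g y < 0) :
    ∃ t : ℝ, 0 ≤ t ∧ t < 1 ∧ g ((1 - t) • x + t • y) = 0 ∧ (0 < g x → 0 < t) := by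
  have hg' : Aff1 (fun z => - g z) := by
    intro a b t
    simp only [hg a b t]
    ring
  obtain ⟨t, h1, h2, h3, h4⟩ := cross hg' (x := x) (y := y) (by simpa using hx) (by simpa using hy)
  refine ⟨t, h1, h2, by simpa using h3, fun h => h4 (by simpa using h)⟩

variable {ι : Type*} [DecidableEq ι]

/-- The hypotheses of the laminar lemma. -/
structure Lam (V S : Set E) (g : ι → E → ℝ) (K : Finset ι) (o : E) : Prop where
  aff : ∀ k, Aff1 (g k)
  conv : ∀ x ∈ V, ∀ y ∈ V, ∀ t : ℝ, 0 ≤ t → t ≤ 1 → (1 - t) • x + t • y ∈ V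
  seg : ∀ p ∈ S, ∀ y ∈ V, ∀ t : ℝ, 0 < t → t ≤ 1 → (1 - t) • p + t • y ∈ V
  oV : o ∈ V
  o_le : ∀ k ∈ K, g k o ≤ 0
  meets : ∀ k ∈ K, ∃ y ∈ V, g k y = 0
  nocross : ∀ k ∈ K, ∀ l ∈ K, k ≠ l → ∀ y ∈ V, g k y = 0 → g l y ≠ 0
  one : ∀ p ∈ S, ∀ q ∈ S, ∀ k ∈ K, ∀ l ∈ K, k ≠ l → g k p = 0 → g l p = 0 → g k q = 0 →
    g l q = 0 → p = q
  tang : ∀ p ∈ S, ∃ τ : E → ℝ, (∀ x ∈ V, τ x < 0) ∧ ∀ k ∈ K, ∀ l ∈ K, k ≠ l → g k p = 0 →
    g l p = 0 → ∃ α β : ℝ, ∀ x ∈ V, τ x = α * g k x + β * g l x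

/-- The cap of `k` is inside the cap of `l`. -/
def Nest (V : Set E) (g : ι → E → ℝ) (k l : ι) : Prop := ∀ x ∈ V, 0 ≤ g k x → 0 < g l x

/-- The caps of `k` and `l` are disjoint. -/
def Dj (V : Set E) (g : ι → E → ℝ) (k l : ι) : Prop := ∀ x ∈ V, 0 ≤ g k x → g l x < 0

variable {V S : Set E} {g : ι → E → ℝ} {K : Finset ι} {o : E}

/-- Inside `V` the function `g k` does not change sign on the zero set of `g l`. -/
lemma same_sign (h : Lam V S g K o) {k l : ι} (hk : k ∈ K) (hl : l ∈ K) (hkl : k ≠ l) {x y : E}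
    (hx : x ∈ V) (hy : y ∈ V) (hlx : g l x = 0) (hly : g l y = 0) (h1 : g k x ≤ 0)
    (h2 : 0 < g k y) : False := by
  obtain ⟨t, ht0, ht1, hz, _⟩ := cross (h.aff k) h1 h2
  have hzV := h.conv x hx y hy t ht0 ht1.le
  refine h.nocross k hk l hl hkl _ hzV hz ?_
  rw [h.aff l, hlx, hly]
  ring

lemma tri (h : Lam V S g K o) {k l : ι} (hk : k ∈ K) (hl : l ∈ K) (hkl : k ≠ l) :
    Nest V g k l ∨ Nest V g l k ∨ (Dj V g k l ∧ Dj V g l k) := by
  obtain ⟨y, hyV, hy⟩ := h.meets k hk
  obtain ⟨z, hzV, hz⟩ := h.meets l hl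
  have hly : g l y ≠ 0 := h.nocross k hk l hl hkl y hyV hy
  have hkz : g k z ≠ 0 := h.nocross l hl k hk hkl.symm z hzV hz
  -- general statement: a point x with g k x ≥ 0, g l x of the sign opposite to g l y
  have key : ∀ (k l : ι), k ∈ K → l ∈ K → k ≠ l → ∀ y ∈ V, g k y = 0 → 0 < g l y →
      ∀ z ∈ V, g l z = 0 → g k z < 0 → Nest V g k l := by
    intro k l hk hl hkl y hyV hy hly z hzV hz hkz x hx hgx
    by_contra hcon
    push Not at hcon
    obtain ⟨t, ht0, ht1, hw, _⟩ := cross (h.aff l) hcon hly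
    have hwV := h.conv x hx y hyV t ht0 ht1.le
    have hkw : 0 ≤ g k ((1 - t) • x + t • y) := by
      rw [h.aff k, hy]
      have : 0 ≤ (1 - t) * g k x := mul_nonneg (by linarith) hgx
      linarith
    rcases hkw.eq_or_lt with h0 | h0
    · exact h.nocross k hk l hl hkl _ hwV h0.symm hw
    · exact same_sign h hk hl hkl hzV hwV hz hw hkz.le h0
  have key2 : ∀ (k l : ι), k ∈ K → l ∈ K → k ≠ l → ∀ y ∈ V, g k y = 0 → g l y < 0 →
      ∀ z ∈ V, g l z = 0 → g k z < 0 → Dj V g k l := by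
    intro k l hk hl hkl y hyV hy hly z hzV hz hkz x hx hgx
    by_contra hcon
    push Not at hcon
    obtain ⟨t, ht0, ht1, hw, _⟩ := cross' (h.aff l) hcon hly
    have hwV := h.conv x hx y hyV t ht0 ht1.le
    have hkw : 0 ≤ g k ((1 - t) • x + t • y) := by
      rw [h.aff k, hy]
      have : 0 ≤ (1 - t) * g k x := mul_nonneg (by linarith) hgx
      linarith
    rcases hkw.eq_or_lt with h0 | h0
    · exact h.nocross k hk l hl hkl _ hwV h0.symm hw
    · exact same_sign h hk hl hkl hzV hwV hz hw hkz.le h0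
  rcases lt_or_gt_of_ne hly with h1 | h1 <;> rcases lt_or_gt_of_ne hkz with h2 | h2
  · right; right
    exact ⟨key2 k l hk hl hkl y hyV hy h1 z hzV hz h2,
      key2 l k hl hk hkl.symm z hzV hz h2 y hyV hy h1⟩
  · right; left
    exact key l k hl hk hkl.symm z hzV hz h2 y hyV hy h1
  · left
    exact key k l hk hl hkl y hyV hy h1 z hzV hz h2
  · exfalso
    -- both positive: contradiction with the base point
    obtain ⟨t, ht0, ht1, hw, _⟩ := cross (h.aff l) (h.o_le l hl) h1
    have hwV := h.conv o h.oV y hyV t ht0 ht1.le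
    have hkw : g k ((1 - t) • o + t • y) ≤ 0 := by
      rw [h.aff k, hy]
      have : (1 - t) * g k o ≤ 0 := mul_nonpos_of_nonneg_of_nonpos (by linarith) (h.o_le k hk)
      linarith
    exact same_sign h hk hl hkl hwV hzV hw hz hkw h2

/-- Nestedness passes to the boundary. -/
lemma nest_le (h : Lam V S g K o) {k l : ι} (hk : k ∈ K) (hN : Nest V g k l) {p : E} (hp : p ∈ S)
    (hgp : 0 ≤ g k p) : 0 ≤ g l p := by
  by_contra hcon
  push Not at hcon
  obtain ⟨y, hyV, hy⟩ := h.meets k hk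
  have hly : 0 < g l y := hN y hyV hy.ge
  obtain ⟨t, ht0, ht1, hw, htp⟩ := cross (h.aff l) hcon.le hly
  have hwV := h.seg p hp y hyV t (htp hcon) ht1.le
  have hkw : 0 ≤ g k ((1 - t) • p + t • y) := by
    rw [h.aff k, hy]
    have : 0 ≤ (1 - t) * g k p := mul_nonneg (by linarith) hgp
    linarith
  have := hN _ hwV hkw
  linarith

/-- A boundary point of the larger cap in the closed smaller cap is a boundary point of it. -/
lemma nest_zero (h : Lam V S g K o) {k l : ι} (hl : l ∈ K) (hN : Nest V g k l) {p : E}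
    (hp : p ∈ S) (hgp : 0 ≤ g k p) (hlp : g l p = 0) : g k p = 0 := by
  by_contra hcon
  have hpos : 0 < g k p := lt_of_le_of_ne hgp (Ne.symm hcon)
  obtain ⟨z, hzV, hz⟩ := h.meets l hl
  have hkz : g k z < 0 := by
    by_contra h'
    push Not at h'
    have := hN z hzV h'
    linarith
  obtain ⟨t, ht0, ht1, hw, htp⟩ := cross' (h.aff k) hpos.le hkz
  have hwV := h.seg p hp z hzV t (htp hpos) ht1.le
  have := hN _ hwV hw.ge
  rw [h.aff l, hlp, hz] at this
  linarith

/-- `(p, k)` is inner: the cap of `k` is inside another cap through `p`. -/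
def Inner (V : Set E) (g : ι → E → ℝ) (K : Finset ι) (p : E) (k : ι) : Prop :=
  ∃ l ∈ K, l ≠ k ∧ g l p = 0 ∧ Nest V g k l

/-- Every cap is inner at most at one of its points. -/
lemma inner_unique (h : Lam V S g K o) {k : ι} (hk : k ∈ K) {p q : E} (hp : p ∈ S) (hq : q ∈ S)
    (hkp : g k p = 0) (hkq : g k q = 0) (h1 : Inner V g K p k) (h2 : Inner V g K q k) :
    p = q := by
  obtain ⟨l, hl, hlk, hlp, hN⟩ := h1
  obtain ⟨l', hl', hlk', hlq, hN'⟩ := h2
  by_cases hll : l = l'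
  · subst hll
    exact h.one p hp q hq k hk l hl hlk.symm hkp hlp hkq hlq
  · obtain ⟨y, hyV, hy⟩ := h.meets k hk
    have h3 := hN y hyV hy.ge
    have h4 := hN' y hyV hy.ge
    rcases tri h hl hl' hll with h5 | h5 | h5
    · -- cap l inside cap l'
      have h6 : 0 ≤ g l q := nest_le h hk hN hq hkq.ge
      have h7 : g l q = 0 := nest_zero h hl' h5 hq h6 hlq
      exact h.one p hp q hq k hk l hl hlk.symm hkp hlp hkq h7
    · have h6 : 0 ≤ g l' p := nest_le h hk hN' hp hkp.ge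
      have h7 : g l' p = 0 := nest_zero h hl h5 hp h6 hlp
      exact h.one p hp q hq k hk l' hl' hlk'.symm hkp h7 hkq hlq
    · have := h5.1 y hyV h3.le
      linarith

/-- At most two caps through `p` are not inner at `p`. -/
lemma outer_le_two (h : Lam V S g K o) {p : E} (hp : p ∈ S) (J : Finset ι) (hJ : J ⊆ K)
    (hJp : ∀ k ∈ J, g k p = 0) (hJo : ∀ k ∈ J, ¬ Inner V g K p k) : J.card ≤ 2 := by
  by_contra hcon
  push Not at hcon
  obtain ⟨a, ha, b, hb, c, hc, hab, hac, hbc⟩ := Finset.two_lt_card.mp hcon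
  obtain ⟨τ, hτ, hτ'⟩ := h.tang p hp
  have hdj : ∀ k ∈ J, ∀ l ∈ J, k ≠ l → Dj V g k l ∧ Dj V g l k := by
    intro k hk l hl hkl
    rcases tri h (hJ hk) (hJ hl) hkl with h1 | h1 | h1
    · exact absurd ⟨l, hJ hl, hkl.symm, hJp l hl, h1⟩ (hJo k hk)
    · exact absurd ⟨k, hJ hk, hkl, hJp k hk, h1⟩ (hJo l hl)
    · exact h1
  have hpos : ∀ k ∈ J, ∀ l ∈ J, k ≠ l → ∃ α β : ℝ, 0 < α ∧ 0 < β ∧
      ∀ x ∈ V, τ x = α * g k x + β * g l x := by
    intro k hk l hl hkl
    obtain ⟨α, β, hαβ⟩ := hτ' k (hJ hk) l (hJ hl) hkl (hJp k hk) (hJp l hl)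
    refine ⟨α, β, ?_, ?_, hαβ⟩
    · obtain ⟨y, hyV, hy⟩ := h.meets l (hJ hl)
      have h1 := (hdj k hk l hl hkl).2 y hyV hy.ge
      have h2 := hαβ y hyV
      have h3 := hτ y hyV
      rw [hy, mul_zero, add_zero] at h2
      rw [h2] at h3
      by_contra hα
      push Not at hα
      nlinarith
    · obtain ⟨y, hyV, hy⟩ := h.meets k (hJ hk)
      have h1 := (hdj k hk l hl hkl).1 y hyV hy.ge
      have h2 := hαβ y hyV
      have h3 := hτ y hyV
      rw [hy, mul_zero, zero_add] at h2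
      rw [h2] at h3
      by_contra hβ
      push Not at hβ
      nlinarith
  obtain ⟨α1, β1, hα1, hβ1, h1⟩ := hpos a ha b hb hab
  obtain ⟨α2, β2, hα2, hβ2, h2⟩ := hpos a ha c hc hac
  obtain ⟨α3, β3, hα3, hβ3, h3⟩ := hpos b hb c hc hbc
  obtain ⟨y, hyV, hy⟩ := h.meets a (hJ ha)
  obtain ⟨z, hzV, hz⟩ := h.meets b (hJ hb)
  -- at y : τ = β1 g b = β2 g c = α3 g b + β3 g c
  have hy1 := h1 y hyV
  have hy2 := h2 y hyV
  have hy3 := h3 y hyV
  have hyτ := hτ y hyV
  rw [hy] at hy1 hy2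
  have hz1 := h1 z hzV
  have hz2 := h2 z hzV
  have hz3 := h3 z hzV
  have hzτ := hτ z hzV
  rw [hz] at hz1 hz3
  -- β3 < β2 from y, β2 < β3 from z
  have e1 : β3 < β2 := by
    have hb' : g b y < 0 := by
      by_contra hc'
      push Not at hc'
      nlinarith
    have hc' : g c y < 0 := by
      by_contra hc'
      push Not at hc'
      nlinarith
    by_contra hcc
    push Not at hcc
    nlinarith
  have e2 : β2 < β3 := by
    have ha' : g a z < 0 := by
      by_contra hc'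
      push Not at hc'
      nlinarith
    have hc' : g c z < 0 := by
      by_contra hc'
      push Not at hc'
      nlinarith
    by_contra hcc
    push Not at hcc
    nlinarith
  linarith

/-- The linear incidence bound for laminar caps. -/
theorem lam_bound (h : Lam V S g K o) (P : Finset E) (hP : ∀ p ∈ P, p ∈ S) :
    ∑ p ∈ P, (K.filter fun k => g k p = 0).card ≤ 2 * P.card + K.card := by
  classical
  have h1 : ∀ p ∈ P, (K.filter fun k => g k p = 0).card ≤
      2 + (K.filter fun k => g k p = 0 ∧ Inner V g K p k).card := by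
    intro p hp
    have h2 : (K.filter fun k => g k p = 0) =
        (K.filter fun k => g k p = 0 ∧ ¬ Inner V g K p k) ∪
        (K.filter fun k => g k p = 0 ∧ Inner V g K p k) := by
      ext k
      simp only [Finset.mem_union, Finset.mem_filter]
      tauto
    rw [h2]
    refine (Finset.card_union_le _ _).trans ?_
    gcongr
    apply outer_le_two h (hP p hp)
    · exact Finset.filter_subset _ _
    · intro k hk; exact (Finset.mem_filter.mp hk).2.1
    · intro k hk; exact (Finset.mem_filter.mp hk).2.2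
  calc ∑ p ∈ P, (K.filter fun k => g k p = 0).card
      ≤ ∑ p ∈ P, (2 + (K.filter fun k => g k p = 0 ∧ Inner V g K p k).card) :=
        Finset.sum_le_sum h1
    _ = 2 * P.card + ∑ p ∈ P, (K.filter fun k => g k p = 0 ∧ Inner V g K p k).card := by
        rw [Finset.sum_add_distrib, Finset.sum_const, smul_eq_mul, mul_comm]
    _ ≤ 2 * P.card + K.card := by
        gcongr
        have h3 : ∑ p ∈ P, (K.filter fun k => g k p = 0 ∧ Inner V g K p k).card
            = ∑ k ∈ K, (P.filter fun p => g k p = 0 ∧ Inner V g K p k).card := by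
          simp only [Finset.card_filter]
          rw [Finset.sum_comm]
        rw [h3, Finset.card_eq_sum_ones]
        apply Finset.sum_le_sum
        intro k hk
        rw [Finset.card_le_one]
        intro p hp q hq
        rw [Finset.mem_filter] at hp hq
        exact inner_unique h hk (hP p hp.1) (hP q hq.1) hp.2.1 hq.2.1 hp.2.2 hq.2.2

end Pool.Agent.INC84
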