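import Mathlib

/-!
Connected regular level sets: they have punctured neighbourhoods which are connected, and a
continuous function with finitely many zeros on such a set does not change sign on it.
-/

namespace Pool.Agent.INC84

open Set Filter Topology Metric

/-- A punctured ball is connected in dimension at least two. -/
lemma punctured_ball {F : Type*} [NormedAddCommGroup F] [NormedSpace ℝ F]
    (h : 1 < Module.rank ℝ F) {r : ℝ} (hr : 0 < r) :
    IsConnected (ball (0 : F) r \ {0}) := by
  have h1 := isConnected_compl_singleton_of_one_lt_rank h (0 : F)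
  have h2 : ball (0 : F) r \ {0} = (fun x : F => (r / (1 + ‖x‖)) • x) '' {0}ᶜ := by
    ext y
    constructor
    · rintro ⟨hy, hy0⟩
      rw [mem_ball_zero_iff] at hy
      have hy0' : y ≠ 0 := hy0
      have h3 : 0 < r - ‖y‖ := by linarith
      have h4 : 0 < ‖y‖ := norm_pos_iff.mpr hy0'
      refine ⟨(1 / (r - ‖y‖)) • y, ?_, ?_⟩
      · simp only [mem_compl_iff, mem_singleton_iff, smul_eq_zero, not_or]
        exact ⟨by positivity, hy0'⟩
      · simp only
        rw [norm_smul, Real.norm_eq_abs, abs_of_pos (by positivity), smul_smul]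
        have h5 : r / (1 + 1 / (r - ‖y‖) * ‖y‖) * (1 / (r - ‖y‖)) = 1 := by
          field_simp
          ring
        rw [h5, one_smul]
    · rintro ⟨x, hx, rfl⟩
      have hx0 : x ≠ 0 := hx
      have h4 : 0 < ‖x‖ := norm_pos_iff.mpr hx0
      refine ⟨?_, ?_⟩
      · rw [mem_ball_zero_iff, norm_smul, Real.norm_eq_abs, abs_of_pos (by positivity)]
        rw [div_mul_eq_mul_div, div_lt_iff₀ (by positivity)]
        nlinarith
      · simp only [mem_singleton_iff, smul_eq_zero, not_or]
        exact ⟨by positivity, hx0⟩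
  rw [h2]
  apply h1.image
  apply Continuous.continuousOn
  apply Continuous.smul _ continuous_id
  apply Continuous.div continuous_const (by fun_prop)
  intro x
  positivity

variable {E : Type*} [NormedAddCommGroup E] [NormedSpace ℝ E] [FiniteDimensional ℝ E]

/-- Punctured neighbourhoods in a regular level set. -/
theorem local_punctured {g : E → ℝ} {p : E} {g' : E →L[ℝ] ℝ} (hg : HasStrictFDerivAt g g' p)
    (hg' : g' ≠ 0) (hp : g p = 0) (hdim : 3 ≤ Module.finrank ℝ E) {W : Set E} (hW : W ∈ 𝓝 p) :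
    ∃ N ∈ 𝓝 p, N ⊆ W ∧ IsConnected (({x | g x = 0} ∩ N) \ {p}) := by
  have hrange : g'.range = ⊤ := by
    rw [LinearMap.range_eq_top]
    apply LinearMap.surjective
    intro h
    apply hg'
    ext x
    exact congrFun (congrArg DFunLike.coe h) x
  set e := hg.implicitToOpenPartialHomeomorph g g' hrange with he
  have hrank : 1 < Module.rank ℝ g'.ker := by
    have h1 := LinearMap.finrank_range_add_finrank_ker g'.toLinearMap
    have h2 : Module.finrank ℝ (LinearMap.range g'.toLinearMap) ≤ 1 := by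
      calc Module.finrank ℝ (LinearMap.range g'.toLinearMap) ≤ Module.finrank ℝ ℝ :=
            Submodule.finrank_le _
        _ = 1 := Module.finrank_self ℝ
    have h3 : 1 < Module.finrank ℝ g'.ker := by
      have : Module.finrank ℝ g'.ker = Module.finrank ℝ (LinearMap.ker g'.toLinearMap) := rfl
      omega
    have h4 := Module.finrank_eq_rank ℝ g'.ker
    rw [← h4]
    exact_mod_cast h3
  have hps : p ∈ e.source := hg.mem_implicitToOpenPartialHomeomorph_source hrange
  have hep : e p = (0, 0) := by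
    rw [he, hg.implicitToOpenPartialHomeomorph_self hrange, hp]
  -- a box around (0, 0)
  have hnhd : e.target ∩ e.symm ⁻¹' W ∈ 𝓝 ((0 : ℝ), (0 : g'.ker)) := by
    rw [← hep]
    apply Filter.inter_mem
    · exact e.open_target.mem_nhds (e.map_source hps)
    · have h1 := e.tendsto_symm hps
      exact h1 hW
  obtain ⟨r, hr, hball⟩ := Metric.mem_nhds_iff.mp hnhd
  have hbox : ball (0 : ℝ) r ×ˢ ball (0 : g'.ker) r ⊆ e.target ∩ e.symm ⁻¹' W := by
    rw [ball_prod_same]
    exact hball
  refine ⟨e.source ∩ e ⁻¹' (ball (0 : ℝ) r ×ˢ ball (0 : g'.ker) r), ?_, ?_, ?_⟩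
  · apply Filter.inter_mem (e.open_source.mem_nhds hps)
    apply (e.continuousAt hps).preimage_mem_nhds
    rw [hep]
    apply prod_mem_nhds <;> exact ball_mem_nhds _ hr
  · rintro x ⟨hx1, hx2⟩
    have h1 := (hbox hx2).2
    rw [mem_preimage, e.left_inv hx1] at h1
    exact h1
  · have h1 : (({x | g x = 0} ∩ (e.source ∩ e ⁻¹' (ball (0 : ℝ) r ×ˢ ball (0 : g'.ker) r))) \ {p})
        = (fun z : g'.ker => e.symm (0, z)) '' (ball 0 r \ {0}) := by
      ext x
      constructor
      · rintro ⟨⟨hx0, hxs, hxb⟩, hxp⟩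
        have h2 : e x = (0, (e x).2) := by
          have h3 : (e x).1 = g x := hg.implicitToOpenPartialHomeomorph_fst hrange x
          have h4 : (e x).1 = 0 := h3.trans hx0
          exact Prod.ext h4 rfl
        refine ⟨(e x).2, ⟨hxb.2, ?_⟩, ?_⟩
        · intro h3
          rw [mem_singleton_iff] at h3
          apply hxp
          have h4 : e x = e p := by rw [h2, h3, hep]
          exact e.injOn hxs hps h4
        · simp only
          rw [← h2, e.left_inv hxs]
      · rintro ⟨z, ⟨hz, hz0⟩, rfl⟩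
        have h3 : ((0 : ℝ), z) ∈ ball (0 : ℝ) r ×ˢ ball (0 : g'.ker) r :=
          ⟨mem_ball_self hr, hz⟩
        have h4 := (hbox h3).1
        have h5 : e (e.symm (0, z)) = (0, z) := e.right_inv h4
        refine ⟨⟨?_, e.map_target h4, ?_⟩, ?_⟩
        · have h6 : (e (e.symm (0, z))).1 = g (e.symm (0, z)) :=
            hg.implicitToOpenPartialHomeomorph_fst hrange _
          rw [h5] at h6
          exact h6.symm
        · rw [mem_preimage, h5]
          exact h3
        · intro h6
          rw [mem_singleton_iff] at h6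
          apply hz0
          have h6' : e.symm (0, z) = p := h6
          rw [h6', hep] at h5
          have h7 := congrArg Prod.snd h5
          exact h7.symm
    rw [h1]
    apply (punctured_ball hrank hr).image
    apply e.continuousOn_symm.comp (by fun_prop)
    intro z hz
    exact (hbox ⟨mem_ball_self hr, hz.1⟩).1

/-- A continuous function with finitely many zeros on a connected regular level set does not
change sign on it. -/
theorem no_sign_change {g h : E → ℝ} (hg : ContDiff ℝ 1 g) (hreg : ∀ x, g x = 0 → fderiv ℝ g x ≠ 0)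
    (hconn : IsPreconnected {x | g x = 0}) (hh : Continuous h)
    (hfin : ({x | g x = 0} ∩ {x | h x = 0}).Finite) (hdim : 3 ≤ Module.finrank ℝ E) :
    (∀ x, g x = 0 → 0 ≤ h x) ∨ (∀ x, g x = 0 → h x ≤ 0) := by
  by_contra hcon
  push Not at hcon
  obtain ⟨⟨x, hgx, hhx⟩, ⟨y, hgy, hhy⟩⟩ := hcon
  set A := {z | g z = 0 ∧ 0 < h z} with hA
  set B := {z | g z = 0 ∧ h z < 0} with hB
  -- every point of the level set has a small punctured neighbourhood free of zeros of h
  have hloc : ∀ p, g p = 0 → ∀ W ∈ 𝓝 p, ∃ N ∈ 𝓝 p, N ⊆ W ∧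
      IsConnected (({x | g x = 0} ∩ N) \ {p}) ∧ ∀ z ∈ ({x | g x = 0} ∩ N) \ {p}, h z ≠ 0 := by
    intro p hp W hW
    have h1 : (({x | g x = 0} ∩ {x | h x = 0}) \ {p})ᶜ ∈ 𝓝 p := by
      apply (hfin.subset Set.sdiff_subset).isClosed.isOpen_compl.mem_nhds
      simp
    obtain ⟨N, hN, hNW, hNc⟩ := local_punctured
      (hg.contDiffAt.hasStrictFDerivAt (by norm_num)) (hreg p hp) hp hdim (inter_mem hW h1)
    refine ⟨N, hN, fun z hz => (hNW hz).1, hNc, ?_⟩
    rintro z ⟨⟨hz1, hz2⟩, hz3⟩ hz4
    exact (hNW hz2).2 ⟨⟨hz1, hz4⟩, hz3⟩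
  have hsub : {x | g x = 0} ⊆ closure A ∪ closure B := by
    intro p hp
    by_contra hcon
    rw [mem_union, not_or] at hcon
    have h1 : (closure A)ᶜ ∩ (closure B)ᶜ ∈ 𝓝 p :=
      inter_mem (isClosed_closure.isOpen_compl.mem_nhds hcon.1)
        (isClosed_closure.isOpen_compl.mem_nhds hcon.2)
    obtain ⟨N, hN, hNW, hNc, hNz⟩ := hloc p hp _ h1
    obtain ⟨z, hz⟩ := hNc.nonempty
    have h2 := hNz z hz
    rcases lt_or_gt_of_ne h2 with h3 | h3
    · exact (hNW hz.1.2).2 (subset_closure ⟨hz.1.1, h3⟩)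
    · exact (hNW hz.1.2).1 (subset_closure ⟨hz.1.1, h3⟩)
  obtain ⟨p, hp, hpA, hpB⟩ := isPreconnected_closed_iff.mp hconn _ _ isClosed_closure
    isClosed_closure hsub ⟨y, hgy, subset_closure ⟨hgy, hhy⟩⟩ ⟨x, hgx, subset_closure ⟨hgx, hhx⟩⟩
  have hp0 : h p = 0 := by
    apply le_antisymm
    · have h1 : closure B ⊆ {z | h z ≤ 0} :=
        closure_minimal (fun z hz => hz.2.le) (isClosed_le hh continuous_const)
      exact h1 hpB
    · have h1 : closure A ⊆ {z | 0 ≤ h z} :=
        closure_minimal (fun z hz => hz.2.le) (isClosed_le continuous_const hh)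
      exact h1 hpA
  obtain ⟨N, hN, _, hNc, hNz⟩ := hloc p hp univ univ_mem
  obtain ⟨a, haN, haA⟩ := mem_closure_iff_nhds.mp hpA N hN
  obtain ⟨b, hbN, hbB⟩ := mem_closure_iff_nhds.mp hpB N hN
  have ha : a ∈ ({x | g x = 0} ∩ N) \ {p} := by
    refine ⟨⟨haA.1, haN⟩, ?_⟩
    rintro rfl
    have := haA.2
    linarith
  have hb : b ∈ ({x | g x = 0} ∩ N) \ {p} := by
    refine ⟨⟨hbB.1, hbN⟩, ?_⟩
    rintro rfl
    have := hbB.2
    linarith
  have h1 := hNc.isPreconnected.intermediate_value hb ha hh.continuousOn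
  obtain ⟨z, hz, hz0⟩ := h1 ⟨hbB.2.le, haA.2.le⟩
  exact hNz z hz hz0

end Pool.Agent.INC84
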