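import Pool.Agent.INC84.Num

/-!
The incidence bound for images of hyperplane sections.
-/

namespace Pool.Agent.INC84

open Finset

set_option linter.unusedSectionVars false

open Classical in
/-- The number of incidences between a set of points and a set of surfaces. -/
noncomputable def inc {X : Type*} (P : Finset X) (𝒮 : Finset (Set X)) : ℕ :=
  ((P ×ˢ 𝒮).filter fun x => x.1 ∈ x.2).card

theorem main {E X : Type*} [AddCommGroup E] [Module ℝ E] [FiniteDimensional ℝ E]
    {U Sg : Set E} (hO : Ov U Sg) (ψ : E → X) (hψ : Set.InjOn ψ Sg) {m k : ℕ} (hm : 2 ≤ m)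
    (hk : m ≤ k) (hdim : m + 2 ≤ Module.finrank ℝ E) (P : Finset X) (𝒮 : Finset (Set X))
    (hS : ∀ S ∈ 𝒮, ∃ f : E →ₗ[ℝ] ℝ, ∃ b : ℝ, S = ψ '' {x | x ∈ Sg ∧ f x = b})
    (hfin : ∀ M ⊆ 𝒮, M.card = m → (⋂ S ∈ M, S).Finite) :
    (inc P 𝒮 : ℝ) ≤ Cm m * ((P.card : ℝ) ^ ((k * (m - 1) : ℝ) / (m * k - 1)) *
      (𝒮.card : ℝ) ^ ((m * (k - 1) : ℝ) / (m * k - 1)) + P.card + 𝒮.card) := by
  classical
  choose f b hfb using fun S : 𝒮 => hS S.1 S.2
  have hcfg : Cfg U Sg f b m := by
    refine ⟨hO, hm, hdim, ?_⟩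
    intro M hM
    apply Set.Finite.of_finite_image (f := ψ)
    · apply (hfin (M.map (Function.Embedding.subtype _)) _ _).subset
      · rintro _ ⟨x, ⟨hxS, hxM⟩, rfl⟩
        rw [Set.mem_iInter₂]
        intro S hSM
        rw [Finset.mem_map] at hSM
        obtain ⟨S', hS', rfl⟩ := hSM
        have h1 := hfb S'
        simp only [Function.Embedding.subtype_apply]
        rw [h1]
        exact ⟨x, ⟨hxS, hxM S' hS'⟩, rfl⟩
      · intro S hSM
        rw [Finset.mem_map] at hSM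
        obtain ⟨S', _, rfl⟩ := hSM
        exact S'.2
      · rw [Finset.card_map, hM]
    · exact hψ.mono Set.inter_subset_left
  have hA : (Sg ∩ ψ ⁻¹' (P : Set X)).Finite := by
    apply Set.Finite.of_finite_image (f := ψ)
    · apply P.finite_toSet.subset
      rintro _ ⟨x, ⟨_, hx⟩, rfl⟩
      exact hx
    · exact hψ.mono Set.inter_subset_left
  set P' : Finset E := hA.toFinset with hP'
  have hP'S : ∀ p ∈ P', p ∈ Sg := by
    intro p hp
    rw [hP', Set.Finite.mem_toFinset] at hp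
    exact hp.1
  have hP'c : P'.card ≤ P.card := by
    apply Finset.card_le_card_of_injOn ψ
    · intro p hp
      rw [Finset.mem_coe, hP', Set.Finite.mem_toFinset] at hp
      exact hp.2
    · intro p hp q hq hpq
      exact hψ (hP'S p hp) (hP'S q hq) hpq
  have hinc : inc P 𝒮 ≤ ∑ p ∈ P', (J f b p).card := by
    have h1 : inc P 𝒮 = ∑ S ∈ 𝒮, (P.filter fun p => p ∈ S).card := by
      unfold inc
      rw [Finset.card_filter, Finset.sum_product_right]
      simp only [Finset.card_filter]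
    have h2 : ∑ p ∈ P', (J f b p).card = ∑ S : 𝒮, (P'.filter fun p => f S p = b S).card := by
      simp only [J, Finset.card_filter]
      rw [Finset.sum_comm]
    rw [h1, h2, ← Finset.sum_coe_sort]
    apply Finset.sum_le_sum
    intro S _
    have h3 : (P.filter fun p => p ∈ (S : Set X)) ⊆ (P'.filter fun p => f S p = b S).image ψ := by
      intro p hp
      rw [Finset.mem_filter] at hp
      have h4 := hp.2
      rw [hfb S] at h4
      obtain ⟨x, ⟨hxS, hxf⟩, rfl⟩ := h4
      rw [Finset.mem_image]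
      refine ⟨x, ?_, rfl⟩
      rw [Finset.mem_filter, hP', Set.Finite.mem_toFinset]
      exact ⟨⟨hxS, hp.1⟩, hxf⟩
    exact (Finset.card_le_card h3).trans Finset.card_image_le
  have h5 := numeric (N := P'.card) (n := Fintype.card 𝒮) (I := ∑ p ∈ P', (J f b p).card)
    (Ir := ∑ p ∈ P'.filter (fun p => 2 * m ≤ (J f b p).card), (J f b p).card) hm hk
    (inc_le P') (rich_inc hcfg P' hP'S) (inc_sq hcfg P' hP'S)
  have h6 : Fintype.card 𝒮 = 𝒮.card := Fintype.card_coe 𝒮
  rw [h6] at h5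
  have hmk : (0 : ℝ) < (m : ℝ) * k - 1 := by
    have : (2 : ℝ) ≤ (m : ℝ) * k := by
      exact_mod_cast (show 2 ≤ m * k by nlinarith)
    linarith
  have hm1 : (1 : ℝ) ≤ m := by exact_mod_cast (by omega : 1 ≤ m)
  have hα : 0 ≤ (k * (m - 1) : ℝ) / (m * k - 1) := by
    apply div_nonneg _ hmk.le
    apply mul_nonneg (Nat.cast_nonneg _)
    linarith
  have hPP : (P'.card : ℝ) ≤ P.card := by exact_mod_cast hP'c
  calc (inc P 𝒮 : ℝ) ≤ ((∑ p ∈ P', (J f b p).card : ℕ) : ℝ) := by exact_mod_cast hinc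
    _ ≤ Cm m * ((P'.card : ℝ) ^ ((k * (m - 1) : ℝ) / (m * k - 1)) *
      (𝒮.card : ℝ) ^ ((m * (k - 1) : ℝ) / (m * k - 1)) + P'.card + 𝒮.card) := h5
    _ ≤ _ := by gcongr

end Pool.Agent.INC84
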