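import Pool.Agent.INC84.Count

/-!
From the two counting inequalities to the conjectured incidence bound.
-/

namespace Pool.Agent.INC84

open Finset

set_option linter.unusedSectionVars false

/-- The constant of the rich part. -/
def Am (m : ℕ) : ℕ := 2 ^ (m - 1) * (m - 2).factorial

lemma rich_term {m t : ℕ} (hm : 2 ≤ m) (ht : 2 * m ≤ t) :
    t ^ (m - 1) ≤ Am m * (t.choose (m - 2) * (t - m)) := by
  have h1 : t ^ (m - 2) ≤ 2 ^ (m - 2) * ((m - 2).factorial * t.choose (m - 2)) := by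
    have h2 : (t + 1 - (m - 2)) ^ (m - 2) ≤ (m - 2).factorial * t.choose (m - 2) := by
      have h3 := Nat.pow_le_choose (α := ℚ) (m - 2) t
      have h4 : (0 : ℚ) < ((m - 2).factorial : ℚ) := by exact_mod_cast Nat.factorial_pos _
      rw [div_le_iff₀ h4] at h3
      have h5 : ((t + 1 - (m - 2) : ℕ) : ℚ) ^ (m - 2) ≤ ((m - 2).factorial * t.choose (m - 2) : ℕ) := by
        push_cast at h3 ⊢
        linarith
      exact_mod_cast h5
    calc t ^ (m - 2) ≤ (2 * (t + 1 - (m - 2))) ^ (m - 2) := by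
          gcongr
          omega
      _ = 2 ^ (m - 2) * (t + 1 - (m - 2)) ^ (m - 2) := mul_pow _ _ _
      _ ≤ _ := by gcongr
  have h6 : t ≤ 2 * (t - m) := by omega
  have h7 : m - 1 = (m - 2) + 1 := by omega
  calc t ^ (m - 1) = t ^ (m - 2) * t := by rw [h7, pow_succ]
    _ ≤ (2 ^ (m - 2) * ((m - 2).factorial * t.choose (m - 2))) * (2 * (t - m)) := by gcongr
    _ = Am m * (t.choose (m - 2) * (t - m)) := by
        unfold Am
        rw [h7, pow_succ]
        ring

section
variable {E : Type*} [AddCommGroup E] [Module ℝ E] [FiniteDimensional ℝ E]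
variable {ι : Type*} [Fintype ι] [DecidableEq ι] {U Sg : Set E}
variable {f : ι → E →ₗ[ℝ] ℝ} {b : ι → ℝ} {m : ℕ}

open Classical in
/-- The power sum over the rich points. -/
theorem rich_sum (h : Cfg U Sg f b m) (P : Finset E) (hP : ∀ p ∈ P, p ∈ Sg) :
    ∑ p ∈ P.filter (fun p => 2 * m ≤ (J f b p).card), (J f b p).card ^ (m - 1)
      ≤ Am m * (Fintype.card ι) ^ (m - 1) := by
  have h2 := h.two
  set R := P.filter (fun p => 2 * m ≤ (J f b p).card) with hR
  have h1 := count_sections h R (fun p hp => hP p (Finset.mem_filter.mp hp).1)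
  have h3 : ∑ p ∈ R, (J f b p).card.choose (m - 2) * ((J f b p).card - m)
      ≤ (Fintype.card ι).choose (m - 2) * Fintype.card ι := by
    have h4 : ∑ p ∈ R, (J f b p).card.choose (m - 2) * ((J f b p).card - (m - 2))
        = ∑ p ∈ R, (J f b p).card.choose (m - 2) * ((J f b p).card - m)
          + 2 * ∑ p ∈ R, (J f b p).card.choose (m - 2) := by
      rw [Finset.mul_sum, ← Finset.sum_add_distrib]
      apply Finset.sum_congr rfl
      intro p hp
      have h5 : 2 * m ≤ (J f b p).card := (Finset.mem_filter.mp hp).2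
      have h6 : (J f b p).card - (m - 2) = ((J f b p).card - m) + 2 := by omega
      rw [h6]
      ring
    omega
  calc ∑ p ∈ R, (J f b p).card ^ (m - 1)
      ≤ ∑ p ∈ R, Am m * ((J f b p).card.choose (m - 2) * ((J f b p).card - m)) := by
        apply Finset.sum_le_sum
        intro p hp
        exact rich_term h2 (Finset.mem_filter.mp hp).2
    _ = Am m * ∑ p ∈ R, (J f b p).card.choose (m - 2) * ((J f b p).card - m) := by
        rw [Finset.mul_sum]
    _ ≤ Am m * ((Fintype.card ι).choose (m - 2) * Fintype.card ι) := by gcongr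
    _ ≤ Am m * ((Fintype.card ι) ^ (m - 2) * Fintype.card ι) := by
        gcongr
        exact Nat.choose_le_pow _ _
    _ = Am m * (Fintype.card ι) ^ (m - 1) := by
        rw [← pow_succ]
        congr 2
        omega

open Classical in
/-- The incidences at rich points. -/
theorem rich_inc (h : Cfg U Sg f b m) (P : Finset E) (hP : ∀ p ∈ P, p ∈ Sg) :
    (∑ p ∈ P.filter (fun p => 2 * m ≤ (J f b p).card), (J f b p).card) ^ (m - 1)
      ≤ P.card ^ (m - 2) * (Am m * (Fintype.card ι) ^ (m - 1)) := by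
  have h2 := h.two
  set R := P.filter (fun p => 2 * m ≤ (J f b p).card) with hR
  have h1 := rich_sum h P hP
  rw [← hR] at h1
  have h7 : m - 1 = (m - 2) + 1 := by omega
  rcases R.eq_empty_or_nonempty with h0 | h0
  · rw [h0, Finset.sum_empty, zero_pow (by omega)]
    exact Nat.zero_le _
  · have h3 : (∑ p ∈ R, ((J f b p).card : ℝ)) ^ (m - 2 + 1) / (R.card : ℝ) ^ (m - 2)
        ≤ ∑ p ∈ R, ((J f b p).card : ℝ) ^ (m - 2 + 1) :=
      pow_sum_div_card_le_sum_pow (fun p _ => Nat.cast_nonneg _) (m - 2)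
    have hRc : (0 : ℝ) < (R.card : ℝ) ^ (m - 2) := by
      have : 0 < R.card := Finset.card_pos.mpr h0
      positivity
    rw [div_le_iff₀ hRc, ← h7] at h3
    have h4 : (∑ p ∈ R, (J f b p).card) ^ (m - 1)
        ≤ (∑ p ∈ R, (J f b p).card ^ (m - 1)) * R.card ^ (m - 2) := by
      exact_mod_cast h3
    calc (∑ p ∈ R, (J f b p).card) ^ (m - 1)
        ≤ (∑ p ∈ R, (J f b p).card ^ (m - 1)) * R.card ^ (m - 2) := h4
      _ ≤ (Am m * (Fintype.card ι) ^ (m - 1)) * P.card ^ (m - 2) := by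
          gcongr
          exact Finset.filter_subset _ _
      _ = _ := by ring

open Classical in
/-- The total incidences in terms of the rich points. -/
theorem inc_le (P : Finset E) :
    ∑ p ∈ P, (J f b p).card ≤ 2 * m * P.card
      + ∑ p ∈ P.filter (fun p => 2 * m ≤ (J f b p).card), (J f b p).card := by
  rw [← Finset.sum_filter_add_sum_filter_not P (fun p => 2 * m ≤ (J f b p).card), add_comm]
  gcongr
  calc ∑ p ∈ P.filter (fun p => ¬ 2 * m ≤ (J f b p).card), (J f b p).card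
      ≤ ∑ p ∈ P.filter (fun p => ¬ 2 * m ≤ (J f b p).card), 2 * m := by
        apply Finset.sum_le_sum
        intro p hp
        have := (Finset.mem_filter.mp hp).2
        omega
    _ = (P.filter (fun p => ¬ 2 * m ≤ (J f b p).card)).card * (2 * m) := by
        rw [Finset.sum_const, smul_eq_mul]
    _ ≤ P.card * (2 * m) := by
        gcongr
        exact Finset.filter_subset _ _
    _ = 2 * m * P.card := by ring

open Classical in
theorem inc_sq (h : Cfg U Sg f b m) (P : Finset E) (hP : ∀ p ∈ P, p ∈ Sg) :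
    (∑ p ∈ P, (J f b p).card) ^ 2 ≤ Fintype.card ι *
      (∑ p ∈ P, (J f b p).card + (m - 1) * P.card ^ 2) := by
  have h1 : ∑ p ∈ P, (J f b p).card = ∑ k : ι, (P.filter fun p => f k p = b k).card := by
    simp only [J, Finset.card_filter]
    rw [Finset.sum_comm]
  rw [h1]
  calc (∑ k : ι, (P.filter fun p => f k p = b k).card) ^ 2
      ≤ (Finset.univ : Finset ι).card * ∑ k : ι, (P.filter fun p => f k p = b k).card ^ 2 :=
        sq_sum_le_card_mul_sum_sq
    _ ≤ _ := by
        rw [Finset.card_univ]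
        gcongr
        exact count_points h P hP

end

/-- The constant. -/
def Cm (m : ℕ) : ℕ := 2 ^ (m - 1) * Am m * (2 * m) + 4 * m

/-- The numerical conclusion. -/
theorem numeric {m k N n I Ir : ℕ} (hm : 2 ≤ m) (hk : m ≤ k) (h1 : I ≤ 2 * m * N + Ir)
    (h2 : Ir ^ (m - 1) ≤ N ^ (m - 2) * (Am m * n ^ (m - 1)))
    (h3 : I ^ 2 ≤ n * (I + (m - 1) * N ^ 2)) :
    (I : ℝ) ≤ Cm m * ((N : ℝ) ^ ((k * (m - 1) : ℝ) / (m * k - 1)) *
      (n : ℝ) ^ ((m * (k - 1) : ℝ) / (m * k - 1)) + N + n) := by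
  have hm1 : (1 : ℝ) ≤ m := by exact_mod_cast (by omega : 1 ≤ m)
  have hAm : 1 ≤ Am m := Nat.mul_pos (pow_pos (by norm_num) _) (Nat.factorial_pos _)
  have hC4 : 4 * m ≤ Cm m := Nat.le_add_left _ _
  have hCX : 2 ^ (m - 1) * Am m * (2 * m) ≤ Cm m := Nat.le_add_right _ _
  have hC1 : (1 : ℝ) ≤ (Cm m : ℝ) := by exact_mod_cast (by omega : 1 ≤ Cm m)
  have hR0 : (0 : ℝ) ≤ (N : ℝ) ^ ((k * (m - 1) : ℝ) / (m * k - 1)) *
      (n : ℝ) ^ ((m * (k - 1) : ℝ) / (m * k - 1)) := by positivity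
  by_cases hI1 : I ≤ 4 * m * N
  · have h4 : (I : ℝ) ≤ (4 * m : ℕ) * N := by exact_mod_cast hI1
    calc (I : ℝ) ≤ (4 * m : ℕ) * N := h4
      _ ≤ Cm m * N := by gcongr
      _ ≤ _ := by
          gcongr
          have : (0 : ℝ) ≤ (n : ℝ) := Nat.cast_nonneg _
          linarith
  push Not at hI1
  by_cases hI2 : I ≤ 2 * n
  · have h4 : (I : ℝ) ≤ 2 * n := by exact_mod_cast hI2
    calc (I : ℝ) ≤ 2 * n := h4
      _ ≤ Cm m * n := by
          gcongr
          exact_mod_cast (by omega : 2 ≤ Cm m)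
      _ ≤ _ := by
          gcongr
          have : (0 : ℝ) ≤ (N : ℝ) := Nat.cast_nonneg _
          linarith
  push Not at hI2
  -- positivity
  have hIpos : 0 < I := by omega
  have hn : 1 ≤ n := by
    by_contra h0
    have h0' : n = 0 := by omega
    rw [h0', zero_mul] at h3
    have : 0 < I ^ 2 := by positivity
    omega
  have hIr : I ≤ 2 * Ir := by
    have : 4 * m * N = 2 * (2 * m * N) := by ring
    omega
  have hN : 1 ≤ N := by
    by_contra h0
    have h0' : N = 0 := by omega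
    subst h0'
    have h5 : I ^ 2 ≤ n * I := by simpa using h3
    have h6 : I ≤ n := by
      have : I * I ≤ n * I := by rw [← sq]; exact h5
      exact Nat.le_of_mul_le_mul_right this hIpos
    omega
  -- the two inequalities
  have e1 : I ^ (m - 1) ≤ 2 ^ (m - 1) * Am m * (N ^ (m - 2) * n ^ (m - 1)) := by
    calc I ^ (m - 1) ≤ (2 * Ir) ^ (m - 1) := by gcongr
      _ = 2 ^ (m - 1) * Ir ^ (m - 1) := mul_pow _ _ _
      _ ≤ 2 ^ (m - 1) * (N ^ (m - 2) * (Am m * n ^ (m - 1))) := by gcongr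
      _ = _ := by ring
  have e2 : I ^ 2 ≤ 2 * m * (n * N ^ 2) := by
    have h5 : 2 * (n * I) ≤ I ^ 2 := by
      rw [sq]
      nlinarith
    have h6 : n * (I + (m - 1) * N ^ 2) = n * I + (m - 1) * (n * N ^ 2) := by ring
    rw [h6] at h3
    have h7 : (m - 1) * (n * N ^ 2) ≤ m * (n * N ^ 2) := by
      gcongr
      exact Nat.sub_le _ _
    have h8 : 2 * m * (n * N ^ 2) = 2 * (m * (n * N ^ 2)) := by ring
    omega
  by_cases hNn : n ^ m < N
  · -- very many points
    have h5 : I ^ (m - 1) ≤ (Cm m * N) ^ (m - 1) := by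
      calc I ^ (m - 1) ≤ 2 ^ (m - 1) * Am m * (N ^ (m - 2) * n ^ (m - 1)) := e1
        _ ≤ Cm m * (N ^ (m - 2) * N) := by
            gcongr
            · calc 2 ^ (m - 1) * Am m ≤ 2 ^ (m - 1) * Am m * (2 * m) :=
                    Nat.le_mul_of_pos_right _ (by omega)
                _ ≤ Cm m := hCX
            · calc n ^ (m - 1) ≤ n ^ m := Nat.pow_le_pow_right hn (by omega)
                _ ≤ N := hNn.le
        _ = Cm m * N ^ (m - 1) := by
            rw [← pow_succ]
            congr 2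
            omega
        _ ≤ Cm m ^ (m - 1) * N ^ (m - 1) := by
            gcongr
            exact Nat.le_self_pow (by omega) _
        _ = _ := (mul_pow _ _ _).symm
    have h6 : I ≤ Cm m * N := by
      exact (Nat.pow_le_pow_iff_left (by omega)).mp h5
    have h7 : (I : ℝ) ≤ Cm m * N := by exact_mod_cast h6
    calc (I : ℝ) ≤ Cm m * N := h7
      _ ≤ _ := by
          gcongr
          have : (0 : ℝ) ≤ (n : ℝ) := Nat.cast_nonneg _
          linarith
  push Not at hNn
  -- the product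
  have e3 : I ^ (m + 1) ≤ Cm m * (N * n) ^ m := by
    calc I ^ (m + 1) = I ^ (m - 1) * I ^ 2 := by
          rw [← pow_add]
          congr 1
          omega
      _ ≤ (2 ^ (m - 1) * Am m * (N ^ (m - 2) * n ^ (m - 1))) * (2 * m * (n * N ^ 2)) := by
          gcongr
      _ = 2 ^ (m - 1) * Am m * (2 * m) * ((N ^ (m - 2) * N ^ 2) * (n ^ (m - 1) * n)) := by ring
      _ = 2 ^ (m - 1) * Am m * (2 * m) * (N * n) ^ m := by
          rw [← pow_add, ← pow_succ, mul_pow]
          congr 3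
          · omega
          · omega
      _ ≤ Cm m * (N * n) ^ m := by gcongr
  have hNr : (1 : ℝ) ≤ (N : ℝ) := by exact_mod_cast hN
  have hnr : (1 : ℝ) ≤ (n : ℝ) := by exact_mod_cast hn
  have hm0 : (0 : ℝ) < (m : ℝ) + 1 := by positivity
  have hmk : (0 : ℝ) < (m : ℝ) * k - 1 := by
    have : (2 : ℝ) ≤ (m : ℝ) * k := by
      exact_mod_cast (show 2 ≤ m * k by nlinarith)
    linarith
  have hkm : (m : ℝ) ≤ k := by exact_mod_cast hk
  set M0 : ℝ := (m : ℝ) / (m + 1) with hM0
  have e4 : (I : ℝ) ≤ Cm m * ((N : ℝ) ^ M0 * (n : ℝ) ^ M0) := by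
    have h5 : (I : ℝ) ^ (m + 1) ≤ (Cm m * ((N : ℝ) ^ M0 * (n : ℝ) ^ M0)) ^ (m + 1) := by
      have h6 : ((N : ℝ) ^ M0 * (n : ℝ) ^ M0) ^ (m + 1) = ((N : ℝ) * n) ^ m := by
        rw [mul_pow, ← Real.rpow_natCast, ← Real.rpow_mul (by positivity),
          ← Real.rpow_natCast ((n : ℝ) ^ M0), ← Real.rpow_mul (by positivity)]
        have h7 : M0 * ((m + 1 : ℕ) : ℝ) = (m : ℕ) := by
          rw [hM0]
          push_cast
          field_simp
        rw [h7, Real.rpow_natCast, Real.rpow_natCast, mul_pow]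
      rw [mul_pow, h6]
      calc (I : ℝ) ^ (m + 1) ≤ Cm m * ((N : ℝ) * n) ^ m := by exact_mod_cast e3
        _ ≤ (Cm m : ℝ) ^ (m + 1) * ((N : ℝ) * n) ^ m := by
            gcongr
            exact le_self_pow₀ hC1 (by omega)
    exact (pow_le_pow_iff_left₀ (by positivity) (by positivity) (by omega)).mp h5
  set δ : ℝ := ((k : ℝ) - m) / ((m * k - 1) * (m + 1)) with hδ
  have hδ0 : 0 ≤ δ := by
    rw [hδ]
    apply div_nonneg
    · linarith
    · positivity
  have e5 : (N : ℝ) ^ M0 * (n : ℝ) ^ M0 ≤ (N : ℝ) ^ ((k * (m - 1) : ℝ) / (m * k - 1)) *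
      (n : ℝ) ^ ((m * (k - 1) : ℝ) / (m * k - 1)) := by
    have h5 : M0 = (k * (m - 1) : ℝ) / (m * k - 1) + δ := by
      rw [hM0, hδ]
      field_simp
      ring
    have h6 : (m * (k - 1) : ℝ) / (m * k - 1) = M0 + m * δ := by
      rw [hM0, hδ]
      field_simp
      ring
    have h7 : (N : ℝ) ^ M0 = (N : ℝ) ^ ((k * (m - 1) : ℝ) / (m * k - 1)) * (N : ℝ) ^ δ := by
      rw [← Real.rpow_add (by linarith), ← h5]
    have h8 : (n : ℝ) ^ ((m * (k - 1) : ℝ) / (m * k - 1)) = (n : ℝ) ^ M0 * ((n : ℝ) ^ m) ^ δ := by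
      rw [h6, Real.rpow_add (by linarith), Real.rpow_mul (by linarith), Real.rpow_natCast]
    rw [h7, h8]
    have h9 : (N : ℝ) ^ δ ≤ ((n : ℝ) ^ m) ^ δ := by
      apply Real.rpow_le_rpow (by linarith) _ hδ0
      exact_mod_cast hNn
    calc (N : ℝ) ^ ((k * (m - 1) : ℝ) / (m * k - 1)) * (N : ℝ) ^ δ * (n : ℝ) ^ M0
        ≤ (N : ℝ) ^ ((k * (m - 1) : ℝ) / (m * k - 1)) * ((n : ℝ) ^ m) ^ δ * (n : ℝ) ^ M0 := by
          gcongr
      _ = _ := by ring
  calc (I : ℝ) ≤ Cm m * ((N : ℝ) ^ M0 * (n : ℝ) ^ M0) := e4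
    _ ≤ Cm m * ((N : ℝ) ^ ((k * (m - 1) : ℝ) / (m * k - 1)) *
          (n : ℝ) ^ ((m * (k - 1) : ℝ) / (m * k - 1))) := by gcongr
    _ ≤ _ := by
        gcongr
        linarith

end Pool.Agent.INC84
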