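import Pool.Agent.INC84.Loc

/-!
Connected regular hypersurfaces of a real vector space of dimension at least three, any two of
which meet in at most `C₀` points: the linear incidence bound.
-/

namespace Pool.Agent.INC84

open Set Filter Topology Metric

set_option linter.unusedSectionVars false

variable {E : Type*} [NormedAddCommGroup E] [NormedSpace ℝ E] [FiniteDimensional ℝ E]
variable {ι : Type*} [Fintype ι] [DecidableEq ι]

/-- The hypersurfaces `g i = 0`. -/
structure THyp (g : ι → E → ℝ) (C₀ : ℕ) : Prop where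
  dim : 3 ≤ Module.finrank ℝ E
  smooth : ∀ i, ContDiff ℝ 1 (g i)
  reg : ∀ i x, g i x = 0 → fderiv ℝ (g i) x ≠ 0
  conn : ∀ i, IsConnected {x | g i x = 0}
  few : ∀ i j, i ≠ j → ({x | g i x = 0} ∩ {x | g j x = 0}).encard ≤ C₀

/-- The set of the points on two hypersurfaces. -/
def Fset (g : ι → E → ℝ) : Set E := {x | ∃ i j, i ≠ j ∧ g i x = 0 ∧ g j x = 0}

variable {g : ι → E → ℝ} {C₀ : ℕ}

lemma THyp.fin2 (h : THyp g C₀) {i j : ι} (hij : i ≠ j) :
    ({x | g i x = 0} ∩ {x | g j x = 0}).Finite :=
  Set.finite_of_encard_le_coe (h.few i j hij)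

lemma THyp.finF (h : THyp g C₀) : (Fset g).Finite := by
  have h1 : Fset g ⊆ ⋃ i : ι, ⋃ j : ι, if i = j then ∅ else {x | g i x = 0} ∩ {x | g j x = 0} := by
    rintro x ⟨i, j, hij, h1, h2⟩
    rw [mem_iUnion]
    refine ⟨i, ?_⟩
    rw [mem_iUnion]
    refine ⟨j, ?_⟩
    rw [if_neg hij]
    exact ⟨h1, h2⟩
  apply Set.Finite.subset _ h1
  apply Set.finite_iUnion
  intro i
  apply Set.finite_iUnion
  intro j
  split_ifs with hij
  · exact Set.finite_empty
  · exact h.fin2 hij

lemma THyp.cont (h : THyp g C₀) (i : ι) : Continuous (g i) := (h.smooth i).continuous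

lemma THyp.rank (h : THyp g C₀) : 1 < Module.rank ℝ E := by
  have h1 := h.dim
  rw [← Module.finrank_eq_rank ℝ E]
  exact_mod_cast (by omega : 1 < Module.finrank ℝ E)

lemma THyp.connV (h : THyp g C₀) : IsConnected (Fset g)ᶜ :=
  h.finF.countable.isConnected_compl_of_one_lt_rank h.rank

/-- Points of a hypersurface are limits of points which are on no other hypersurface. -/
lemma THyp.densZ (h : THyp g C₀) {k : ι} {p : E} (hp : g k p = 0) {W : Set E} (hW : W ∈ 𝓝 p) :
    ∃ z ∈ W, z ∉ Fset g ∧ g k z = 0 := by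
  have h1 : (Fset g \ {p})ᶜ ∈ 𝓝 p := by
    apply (h.finF.subset Set.sdiff_subset).isClosed.isOpen_compl.mem_nhds
    simp
  obtain ⟨N, hN, hNW, hNc⟩ := local_punctured
    ((h.smooth k).contDiffAt.hasStrictFDerivAt (by norm_num)) (h.reg k p hp) hp h.dim
    (inter_mem hW h1)
  obtain ⟨z, ⟨hz1, hz2⟩, hz3⟩ := hNc.nonempty
  refine ⟨z, (hNW hz2).1, ?_, hz1⟩
  intro h4
  exact (hNW hz2).2 ⟨h4, hz3⟩

lemma THyp.densV (h : THyp g C₀) {p : E} {W : Set E} (hW : W ∈ 𝓝 p) : ∃ z ∈ W, z ∉ Fset g := by
  have : Nontrivial E := Module.nontrivial_of_finrank_pos (R := ℝ) (by have := h.dim; omega)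
  have h1 : Dense (Fset g)ᶜ := h.finF.countable.dense_compl ℝ
  obtain ⟨z, hz1, hz2⟩ := mem_closure_iff_nhds.mp (h1 p) W hW
  exact ⟨z, hz1, hz2⟩

lemma THyp.exZ (h : THyp g C₀) (k : ι) : ∃ z, z ∉ Fset g ∧ g k z = 0 := by
  obtain ⟨p, hp⟩ := (h.conn k).nonempty
  obtain ⟨z, _, hz⟩ := h.densZ hp univ_mem
  exact ⟨z, hz⟩

lemma THyp.sgn (h : THyp g C₀) {k l : ι} (hkl : k ≠ l) :
    (∀ x, x ∉ Fset g → g k x = 0 → 0 < g l x) ∨ (∀ x, x ∉ Fset g → g k x = 0 → g l x < 0) := by
  have hne : ∀ x, x ∉ Fset g → g k x = 0 → g l x ≠ 0 := fun x hx h1 h2 => hx ⟨k, l, hkl, h1, h2⟩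
  rcases no_sign_change (h.smooth k) (h.reg k) (h.conn k).isPreconnected (h.cont l)
    (h.fin2 hkl) h.dim with h1 | h1
  · left
    intro x hx hk
    exact lt_of_le_of_ne (h1 x hk) (Ne.symm (hne x hx hk))
  · right
    intro x hx hk
    exact lt_of_le_of_ne (h1 x hk) (hne x hx hk)

/-- The cap of `k` is inside the cap of `l`. -/
def TNest (g : ι → E → ℝ) (k l : ι) : Prop := ∀ x, x ∉ Fset g → 0 ≤ g k x → 0 < g l x

/-- The caps are disjoint. -/
def TDj (g : ι → E → ℝ) (k l : ι) : Prop := ∀ x, x ∉ Fset g → 0 ≤ g k x → g l x < 0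

/-- A connectedness argument. -/
lemma conn_aux {V : Set E} (hV : IsPreconnected V) {a b : E → ℝ} (ha : Continuous a)
    (hb : Continuous b) (h1 : ∀ x ∈ V, a x = 0 → b x < 0) (h2 : ∀ x ∈ V, b x = 0 → a x < 0)
    {x y : E} (hx : x ∈ V) (hy : y ∈ V) (hax : 0 ≤ a x) (hbx : 0 ≤ b x)
    (hy' : a y < 0 ∨ b y < 0) : False := by
  have hax' : 0 < a x := by
    rcases hax.eq_or_lt with h | h
    · have := h1 x hx h.symm; linarith
    · exact h
  have hbx' : 0 < b x := by
    rcases hbx.eq_or_lt with h | h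
    · have := h2 x hx h.symm; linarith
    · exact h
  have hO1 : IsOpen ({z | 0 < a z} ∩ {z | 0 < b z}) :=
    (isOpen_lt continuous_const ha).inter (isOpen_lt continuous_const hb)
  have hO2 : IsOpen ({z | a z < 0} ∪ {z | b z < 0}) :=
    (isOpen_lt ha continuous_const).union (isOpen_lt hb continuous_const)
  obtain ⟨z, hzV, hz1, hz2⟩ := hV _ _ hO1 hO2 (by
    intro z hz
    rcases lt_trichotomy (a z) 0 with h3 | h3 | h3
    · exact Or.inr (Or.inl h3)
    · exact Or.inr (Or.inr (h1 z hz h3))
    · rcases lt_trichotomy (b z) 0 with h4 | h4 | h4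
      · exact Or.inr (Or.inr h4)
      · exact Or.inr (Or.inl (h2 z hz h4))
      · exact Or.inl ⟨h3, h4⟩) ⟨x, hx, hax', hbx'⟩ ⟨y, hy, hy'⟩
  rcases hz2 with h3 | h3
  · have := hz1.1
    simp only [mem_ofPred_eq] at this h3
    linarith
  · have := hz1.2
    simp only [mem_ofPred_eq] at this h3
    linarith

lemma THyp.tri (h : THyp g C₀) {o : E} (hoV : o ∉ Fset g) (ho : ∀ k, g k o ≤ 0) {k l : ι}
    (hkl : k ≠ l) : TNest g k l ∨ TNest g l k ∨ (TDj g k l ∧ TDj g l k) := by
  have hV := h.connV.isPreconnected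
  obtain ⟨zk, hzkV, hzk⟩ := h.exZ k
  obtain ⟨zl, hzlV, hzl⟩ := h.exZ l
  rcases h.sgn hkl with h1 | h1 <;> rcases h.sgn hkl.symm with h2 | h2
  · -- both positive: impossible
    exfalso
    apply conn_aux hV (a := fun x => - g k x) (b := fun x => - g l x) (h.cont k).neg (h.cont l).neg
      (x := o) (y := zk)
    · intro x hx hx0
      have := h1 x hx (by linarith)
      linarith
    · intro x hx hx0
      have := h2 x hx (by linarith)
      linarith
    · exact hoV
    · exact hzkV
    · have := ho k; linarith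
    · have := ho l; linarith
    · right
      have := h1 zk hzkV hzk
      linarith
  · -- g l > 0 on Z k, g k < 0 on Z l: k inside l
    left
    intro x hx hkx
    by_contra hcon
    push Not at hcon
    apply conn_aux hV (a := fun x => g k x) (b := fun x => - g l x) (h.cont k) (h.cont l).neg
      (x := x) (y := zk)
    · intro x hx hx0
      have := h1 x hx hx0
      linarith
    · intro x hx hx0
      exact h2 x hx (by linarith)
    · exact hx
    · exact hzkV
    · exact hkx
    · linarith
    · right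
      have := h1 zk hzkV hzk
      linarith
  · right; left
    intro x hx hlx
    by_contra hcon
    push Not at hcon
    apply conn_aux hV (a := fun x => g l x) (b := fun x => - g k x) (h.cont l) (h.cont k).neg
      (x := x) (y := zl)
    · intro x hx hx0
      have := h2 x hx hx0
      linarith
    · intro x hx hx0
      exact h1 x hx (by linarith)
    · exact hx
    · exact hzlV
    · exact hlx
    · linarith
    · right
      have := h2 zl hzlV hzl
      linarith
  · right; right
    constructor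
    · intro x hx hkx
      by_contra hcon
      push Not at hcon
      apply conn_aux hV (a := fun x => g k x) (b := fun x => g l x) (h.cont k) (h.cont l)
        (x := x) (y := zk)
      · intro x hx hx0
        exact h1 x hx hx0
      · intro x hx hx0
        exact h2 x hx hx0
      · exact hx
      · exact hzkV
      · exact hkx
      · exact hcon
      · right
        exact h1 zk hzkV hzk
    · intro x hx hlx
      by_contra hcon
      push Not at hcon
      apply conn_aux hV (a := fun x => g l x) (b := fun x => g k x) (h.cont l) (h.cont k)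
        (x := x) (y := zl)
      · intro x hx hx0
        exact h2 x hx hx0
      · intro x hx hx0
        exact h1 x hx hx0
      · exact hx
      · exact hzlV
      · exact hlx
      · exact hcon
      · right
        exact h2 zl hzlV hzl

lemma THyp.nest_le (h : THyp g C₀) {k l : ι} (hN : TNest g k l) {p : E} (hp : 0 ≤ g k p) :
    0 ≤ g l p := by
  by_contra hcon
  push Not at hcon
  have h1 : {x | g l x < 0} ∈ 𝓝 p := (isOpen_lt (h.cont l) continuous_const).mem_nhds hcon
  rcases hp.eq_or_lt with h2 | h2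
  · obtain ⟨z, hz1, hz2, hz3⟩ := h.densZ h2.symm h1
    have h3 := hN z hz2 hz3.ge
    simp only [mem_ofPred_eq] at hz1
    linarith
  · have h3 : {x | 0 < g k x} ∈ 𝓝 p := (isOpen_lt continuous_const (h.cont k)).mem_nhds h2
    obtain ⟨z, hz1, hz2⟩ := h.densV (inter_mem h1 h3)
    have h4 := hN z hz2 (by exact hz1.2.le)
    have h5 := hz1.1
    simp only [mem_ofPred_eq] at h5
    linarith

lemma THyp.nest_zero (h : THyp g C₀) {k l : ι} (hN : TNest g k l) {p : E} (hp : 0 ≤ g k p)
    (hlp : g l p = 0) : g k p = 0 := by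
  by_contra hcon
  have hpos : 0 < g k p := lt_of_le_of_ne hp (Ne.symm hcon)
  have h3 : {x | 0 < g k x} ∈ 𝓝 p := (isOpen_lt continuous_const (h.cont k)).mem_nhds hpos
  obtain ⟨z, hz1, hz2, hz3⟩ := h.densZ hlp h3
  have h4 := hN z hz2 (by exact hz1.le)
  linarith

/-- `(p, k)` is inner. -/
def TInner (g : ι → E → ℝ) (p : E) (k : ι) : Prop := ∃ l, g l p = 0 ∧ TNest g k l

lemma THyp.irrefl (h : THyp g C₀) (k : ι) : ¬ TNest g k k := by
  intro hN
  obtain ⟨z, hz1, hz2⟩ := h.exZ k
  have := hN z hz1 hz2.ge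
  linarith

/-- Every hypersurface is inner at most at `C₀` points. -/
lemma THyp.inner_few (h : THyp g C₀) {o : E} (hoV : o ∉ Fset g) (ho : ∀ k, g k o ≤ 0) (k : ι)
    (Q : Finset E) (hQ : ∀ p ∈ Q, g k p = 0 ∧ TInner g p k) : Q.card ≤ C₀ := by
  rcases Q.eq_empty_or_nonempty with rfl | ⟨p0, hp0⟩
  · simp
  · -- the smallest cap around `k`
    let r : ι → ι → Prop := TNest g
    have : IsTrans ι r := ⟨fun a b c hab hbc x hx hax => hbc x hx (hab x hx hax).le⟩
    have : Std.Irrefl r := ⟨h.irrefl⟩
    have hwf : WellFounded r := Finite.wellFounded_of_trans_of_irrefl r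
    obtain ⟨l0, _, hl0⟩ := (hQ p0 hp0).2
    obtain ⟨m, hm, hmin⟩ := hwf.has_min {l | TNest g k l} ⟨l0, hl0⟩
    have hmk : k ≠ m := by
      rintro rfl
      exact h.irrefl _ hm
    have key : ∀ p ∈ Q, p ∈ {x | g k x = 0} ∩ {x | g m x = 0} := by
      intro p hp
      obtain ⟨hkp, l, hlp, hl⟩ := hQ p hp
      refine ⟨hkp, ?_⟩
      by_cases hlm : l = m
      · rw [← hlm]; exact hlp
      · rcases h.tri hoV ho hlm with h1 | h1 | h1
        · exact absurd h1 (hmin l hl)
        · exact h.nest_zero h1 (h.nest_le hm hkp.ge) hlp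
        · exfalso
          obtain ⟨z, hz1, hz2⟩ := h.exZ k
          have h2 := hl z hz1 hz2.ge
          have h3 := hm z hz1 hz2.ge
          have h4 := h1.1 z hz1 h2.le
          linarith
    have h1 : (Q : Set E).encard ≤ C₀ := (Set.encard_le_encard key).trans (h.few k m hmk)
    rw [Set.encard_coe_eq_coe_finsetCard] at h1
    exact_mod_cast h1

/-- Two nonzero linear functionals without a common positive vector are opposite. -/
lemma opposite {α β : E →L[ℝ] ℝ} (hβ : β ≠ 0) (h : ∀ v, 0 < α v → β v ≤ 0) :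
    ∀ v, 0 < α v → β v < 0 := by
  intro v hv
  rcases (h v hv).lt_or_eq with h1 | h1
  · exact h1
  · exfalso
    obtain ⟨w, hw⟩ : ∃ w, 0 < β w := by
      by_contra hcon
      push Not at hcon
      apply hβ
      ext w
      have h2 := hcon w
      have h3 := hcon (-w)
      rw [map_neg] at h3
      simp only [zero_apply]
      linarith
    -- v + ε w
    obtain ⟨ε, hε, hε'⟩ : ∃ ε : ℝ, 0 < ε ∧ 0 < α v + ε * α w := by
      refine ⟨α v / (2 * (1 + |α w|)), by positivity, ?_⟩
      have h2 : -|α w| ≤ α w := neg_abs_le _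
      have h3 : α v / (2 * (1 + |α w|)) * (-|α w|) ≤ α v / (2 * (1 + |α w|)) * α w :=
        mul_le_mul_of_nonneg_left h2 (by positivity)
      have h4 : α v / (2 * (1 + |α w|)) * |α w| < α v := by
        rw [div_mul_eq_mul_div, div_lt_iff₀ (by positivity)]
        nlinarith [abs_nonneg (α w)]
      linarith
    have h2 := h (v + ε • w) (by rw [map_add, map_smul, smul_eq_mul]; exact hε')
    rw [map_add, map_smul, smul_eq_mul, h1, zero_add] at h2
    have h3 : 0 < ε * β w := mul_pos hε hw
    linarith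

/-- Positive derivatives enter the positive sides. -/
lemma THyp.dj_deriv (h : THyp g C₀) {k l : ι} (hD : TDj g k l) {p : E} (hk : g k p = 0)
    (hl : g l p = 0) : ∀ v, 0 < fderiv ℝ (g k) p v → fderiv ℝ (g l) p v ≤ 0 := by
  intro v hv
  by_contra hcon
  push Not at hcon
  have hev : ∀ j, g j p = 0 → 0 < fderiv ℝ (g j) p v → ∀ᶠ t : ℝ in 𝓝[>] 0, 0 < g j (p + t • v) := by
    intro j hj hjv
    have h1 : HasFDerivAt (g j) (fderiv ℝ (g j) p) p :=
      ((h.smooth j).differentiable (by norm_num) p).hasFDerivAt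
    have h2 : HasDerivAt (fun t : ℝ => g j (p + t • v)) (fderiv ℝ (g j) p v) 0 := by
      have h3 : HasDerivAt (fun t : ℝ => p + t • v) v 0 := by
        have := (hasDerivAt_id (0 : ℝ)).smul_const v
        simpa using this.const_add p
      have h4 : HasFDerivAt (g j) (fderiv ℝ (g j) p) (p + (0 : ℝ) • v) := by simpa using h1
      exact h4.comp_hasDerivAt (0 : ℝ) h3
    have h5 := h2.tendsto_slope_zero_right
    have h6 : ∀ᶠ t : ℝ in 𝓝[>] 0, 0 < t⁻¹ • (g j (p + (0 + t) • v) - g j (p + (0 : ℝ) • v)) :=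
      h5.eventually (lt_mem_nhds hjv)
    filter_upwards [h6, self_mem_nhdsWithin] with t ht ht0
    have ht0' : 0 < t := ht0
    rw [zero_add, zero_smul, add_zero, hj, sub_zero, smul_eq_mul] at ht
    by_contra hneg
    push Not at hneg
    have : t⁻¹ * g j (p + t • v) ≤ 0 := mul_nonpos_of_nonneg_of_nonpos (by positivity) hneg
    linarith
  have hv0 : v ≠ 0 := by
    rintro rfl
    simp at hv
  have hF : ∀ᶠ t : ℝ in 𝓝[>] 0, p + t • v ∉ Fset g := by
    have h1 : ((fun t : ℝ => p + t • v) ⁻¹' Fset g).Finite := by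
      apply h.finF.preimage
      intro s _ t _ hst
      simp only at hst
      have h2 : s • v = t • v := add_left_cancel hst
      exact smul_left_injective ℝ hv0 h2
    have h2 : (((fun t : ℝ => p + t • v) ⁻¹' Fset g) \ {0})ᶜ ∈ 𝓝 (0 : ℝ) := by
      apply (h1.subset Set.sdiff_subset).isClosed.isOpen_compl.mem_nhds
      simp
    filter_upwards [mem_nhdsWithin_of_mem_nhds h2, self_mem_nhdsWithin] with t ht ht0
    intro h3
    apply ht
    refine ⟨h3, ?_⟩
    have ht0' : 0 < t := ht0
    exact ht0'.ne'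
  obtain ⟨t, ht1, ht2, ht3⟩ := ((hev k hk hv).and ((hev l hl hcon).and hF)).exists
  have := hD _ ht3 ht1.le
  linarith

lemma THyp.outer_le_two (h : THyp g C₀) {o : E} (hoV : o ∉ Fset g) (ho : ∀ k, g k o ≤ 0) {p : E}
    (J : Finset ι) (hJp : ∀ k ∈ J, g k p = 0) (hJo : ∀ k ∈ J, ¬ TInner g p k) : J.card ≤ 2 := by
  by_contra hcon
  push Not at hcon
  obtain ⟨a, ha, b, hb, c, hc, hab, hac, hbc⟩ := Finset.two_lt_card.mp hcon
  have hdj : ∀ k ∈ J, ∀ l ∈ J, k ≠ l → TDj g k l := by
    intro k hk l hl hkl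
    rcases h.tri hoV ho hkl with h1 | h1 | h1
    · exact absurd ⟨l, hJp l hl, h1⟩ (hJo k hk)
    · exact absurd ⟨k, hJp k hk, h1⟩ (hJo l hl)
    · exact h1.1
  have hop : ∀ k ∈ J, ∀ l ∈ J, k ≠ l → ∀ v, 0 < fderiv ℝ (g k) p v → fderiv ℝ (g l) p v < 0 := by
    intro k hk l hl hkl
    exact opposite (h.reg l p (hJp l hl))
      (h.dj_deriv (hdj k hk l hl hkl) (hJp k hk) (hJp l hl))
  obtain ⟨v, hv⟩ : ∃ v, 0 < fderiv ℝ (g a) p v := by
    by_contra hcon
    push Not at hcon
    apply h.reg a p (hJp a ha)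
    ext w
    have h2 := hcon w
    have h3 := hcon (-w)
    rw [map_neg] at h3
    simp only [zero_apply]
    linarith
  have h1 := hop a ha b hb hab v hv
  have h2 := hop a ha c hc hac v hv
  have h3 := hop b hb c hc hbc (-v) (by rw [map_neg]; linarith)
  rw [map_neg] at h3
  linarith

open Classical in
/-- The linear incidence bound for oriented hypersurfaces. -/
theorem THyp.bound (h : THyp g C₀) {o : E} (hoV : o ∉ Fset g) (ho : ∀ k, g k o ≤ 0)
    (P : Finset E) :
    ∑ p ∈ P, (Finset.univ.filter fun k => g k p = 0).card ≤ 2 * P.card + C₀ * Fintype.card ι := by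
  have h1 : ∀ p ∈ P, (Finset.univ.filter fun k => g k p = 0).card ≤
      2 + (Finset.univ.filter fun k => g k p = 0 ∧ TInner g p k).card := by
    intro p hp
    have h2 : (Finset.univ.filter fun k => g k p = 0) =
        (Finset.univ.filter fun k => g k p = 0 ∧ ¬ TInner g p k) ∪
        (Finset.univ.filter fun k => g k p = 0 ∧ TInner g p k) := by
      ext k
      simp only [Finset.mem_union, Finset.mem_filter, Finset.mem_univ, true_and]
      tauto
    rw [h2]
    refine (Finset.card_union_le _ _).trans ?_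
    gcongr
    apply h.outer_le_two hoV ho (p := p)
    · intro k hk; exact (Finset.mem_filter.mp hk).2.1
    · intro k hk; exact (Finset.mem_filter.mp hk).2.2
  calc ∑ p ∈ P, (Finset.univ.filter fun k => g k p = 0).card
      ≤ ∑ p ∈ P, (2 + (Finset.univ.filter fun k => g k p = 0 ∧ TInner g p k).card) :=
        Finset.sum_le_sum h1
    _ = 2 * P.card + ∑ p ∈ P, (Finset.univ.filter fun k => g k p = 0 ∧ TInner g p k).card := by
        rw [Finset.sum_add_distrib, Finset.sum_const, smul_eq_mul, mul_comm]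
    _ ≤ 2 * P.card + C₀ * Fintype.card ι := by
        gcongr
        have h3 : ∑ p ∈ P, (Finset.univ.filter fun k => g k p = 0 ∧ TInner g p k).card
            = ∑ k : ι, (P.filter fun p => g k p = 0 ∧ TInner g p k).card := by
          simp only [Finset.card_filter]
          rw [Finset.sum_comm]
        rw [h3]
        calc ∑ k : ι, (P.filter fun p => g k p = 0 ∧ TInner g p k).card
            ≤ ∑ k : ι, C₀ := by
              apply Finset.sum_le_sum
              intro k _
              apply h.inner_few hoV ho k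
              intro p hp
              exact (Finset.mem_filter.mp hp).2
          _ = C₀ * Fintype.card ι := by
              rw [Finset.sum_const, Finset.card_univ, smul_eq_mul, mul_comm]

open Classical in
/-- The linear incidence bound. -/
theorem THyp.bound' (h : THyp g C₀) (P : Finset E) :
    ∑ p ∈ P, (Finset.univ.filter fun k => g k p = 0).card ≤ 2 * P.card + C₀ * Fintype.card ι := by
  obtain ⟨o, ho⟩ := h.connV.nonempty
  let ε : ι → ℝ := fun k => if g k o ≤ 0 then 1 else -1
  have hε : ∀ k, ε k ≠ 0 := by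
    intro k
    simp only [ε]
    split_ifs <;> norm_num
  let g' : ι → E → ℝ := fun k x => ε k * g k x
  have h0 : ∀ k x, g' k x = 0 ↔ g k x = 0 := by
    intro k x
    simp only [g', mul_eq_zero, hε k, false_or]
  have hF : Fset g' = Fset g := by
    unfold Fset
    simp only [h0]
  have h' : THyp g' C₀ := by
    refine ⟨h.dim, ?_, ?_, ?_, ?_⟩
    · intro i
      exact contDiff_const.mul (h.smooth i)
    · intro i x hx
      have h1 : fderiv ℝ (g' i) x = ε i • fderiv ℝ (g i) x := by
        apply HasFDerivAt.fderiv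
        exact (((h.smooth i).differentiable (by norm_num) x).hasFDerivAt).const_mul (ε i)
      rw [h1]
      exact smul_ne_zero (hε i) (h.reg i x ((h0 i x).mp hx))
    · intro i
      simp only [h0]
      exact h.conn i
    · intro i j hij
      simp only [h0]
      exact h.few i j hij
  have ho' : ∀ k, g' k o ≤ 0 := by
    intro k
    simp only [g', ε]
    split_ifs with h1
    · linarith
    · push Not at h1; linarith
  have := h'.bound (o := o) (by rw [hF]; exact ho) ho' P
  simpa only [h0] using this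

end Pool.Agent.INC84
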